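import Mathlib
import Pool.Agent.H204R3.CM.Main
import Pool.Agent.H194R3.CM.Defs

/-!
# Hodge classes generated in degree two: the general criterion

All Hodge classes on all products are generated in degree two if the only linear relations between
the functions `σ ↦ ± 1` on the Galois group, given by the embeddings and the CM types, are the
obvious ones, that is, equalities up to sign.
-/

set_option linter.unusedSectionVars false
set_option linter.unusedVariables false

namespace Pool.Agent.H194R3.CM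

open NumberField Module Equiv Pool.Agent.H204R3.CM

noncomputable section

variable {ι J : Type*} [Fintype ι] [Fintype J] {E : ι → Type*} [∀ i, Field (E i)]
  [∀ i, NumberField (E i)] [∀ i, IsCMField (E i)]
  {L : Type*} [Field L] [NumberField L] [IsGalois ℚ L]
  {Φ : ∀ i, Set (E i →+* ℂ)} (hΦ : ∀ i, IsCMType (Φ i)) (t : J → ι) (j : L →+* ℂ)

/-- One coordinate, as a linear map. -/
def chiLin (E : ι → Type*) [∀ i, Field (E i)] [∀ i, NumberField (E i)] (t : J → ι)
    (L : Type*) [Field L] [NumberField L] (x : XX E t L) : (∀ a, E (t a)) →ₗ[ℚ] L :=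
  (RingHom.equivRatAlgHom (E (t x.1)) L x.2).toLinearMap.comp (LinearMap.proj x.1)

theorem chiLin_apply (x : XX E t L) (w : ∀ a, E (t a)) : chiLin E t L x w = chi E t L w x := rfl

/-- The bilinear form `(v, w) ↦ Tr (lam x(v) y(w))`. -/
def cbil (lam : L) (x y : XX E t L) : MultilinearMap ℚ (fun _ : Fin 2 => ∀ a, E (t a)) ℚ :=
  (Algebra.traceForm ℚ L lam).compMultilinearMap
    ((MultilinearMap.mkPiAlgebra ℚ (Fin 2) L).compLinearMap ![chiLin E t L x, chiLin E t L y])

theorem cbil_apply (lam : L) (x y : XX E t L) (v : Fin 2 → ∀ a, E (t a)) :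
    cbil t lam x y v =
      Algebra.trace ℚ L (lam * (chi E t L (v 0) x * chi E t L (v 1) y)) := by
  unfold cbil
  rw [LinearMap.compMultilinearMap_apply, MultilinearMap.compLinearMap_apply,
    MultilinearMap.mkPiAlgebra_apply, Fin.prod_univ_two, Algebra.traceForm_apply]
  rfl

/-- The image of a coordinate under an element of the Galois group and `j`. -/
def mv (σ : L ≃ₐ[ℚ] L) (x : XX E t L) : XX E t ℂ := ⟨x.1, j.comp (σ • x.2)⟩

/-- The real extension of the bilinear form. -/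
def crbil (lam : L) (x y : XX E t L) : MultilinearMap ℝ (fun _ : Fin 2 => Tan Φ t) ℝ :=
  Complex.reLm.compMultilinearMap
    (∑ σ : L ≃ₐ[ℚ] L, (j (σ lam)) • (MultilinearMap.mkPiAlgebra ℝ (Fin 2) ℂ).compLinearMap
      ![(LinearMap.proj (mv t j σ x)).comp (theta t hΦ),
        (LinearMap.proj (mv t j σ y)).comp (theta t hΦ)])

theorem crbil_apply (lam : L) (x y : XX E t L) (u : Fin 2 → Tan Φ t) :
    crbil hΦ t j lam x y u = (∑ σ : L ≃ₐ[ℚ] L, j (σ lam) *
      (theta t hΦ (u 0) (mv t j σ x) * theta t hΦ (u 1) (mv t j σ y))).re := by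
  unfold crbil
  rw [LinearMap.compMultilinearMap_apply, MultilinearMap.sum_apply]
  change (∑ σ : L ≃ₐ[ℚ] L, _ : ℂ).re = _
  congr 1
  refine Finset.sum_congr rfl fun σ _ => ?_
  rw [MultilinearMap.smul_apply, MultilinearMap.compLinearMap_apply,
    MultilinearMap.mkPiAlgebra_apply, Fin.prod_univ_two]
  rfl

theorem dz_pos (z : ℂ) (σ : L ≃ₐ[ℚ] L) (x : XX E t L) (h : j.comp (σ • x.2) ∈ Φ (t x.1)) :
    dz t Φ z (mv t j σ x) = z := by
  unfold dz
  exact if_pos h

theorem dz_neg (z : ℂ) (σ : L ≃ₐ[ℚ] L) (x : XX E t L) (h : j.comp (σ • x.2) ∉ Φ (t x.1)) :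
    dz t Φ z (mv t j σ x) = starRingEnd ℂ z := by
  unfold dz
  exact if_neg h

include hΦ in
theorem hodge_cbil (lam : L) (x y : XX E t L)
    (hxy : ∀ σ : L ≃ₐ[ℚ] L, j.comp (σ • x.2) ∈ Φ (t x.1) ↔ j.comp (σ • y.2) ∉ Φ (t y.1)) :
    HodgeMul (per Φ t) (cbil t lam x y) := by
  classical
  refine ⟨crbil hΦ t j lam x y, fun v => ?_, fun z hz u => ?_⟩
  · rw [crbil_apply, cbil_apply]
    simp only [theta_per]
    have h1 : ∑ σ : L ≃ₐ[ℚ] L, j (σ lam) *
        (chi E t ℂ (v 0) (mv t j σ x) * chi E t ℂ (v 1) (mv t j σ y)) =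
        j (algebraMap ℚ L (Algebra.trace ℚ L (lam * (chi E t L (v 0) x * chi E t L (v 1) y)))) := by
      rw [trace_eq_sum_automorphisms, map_sum]
      refine Finset.sum_congr rfl fun σ _ => ?_
      rw [map_mul, map_mul, map_mul, map_mul]
      rfl
    rw [h1, eq_ratCast, map_ratCast, ← Complex.ofReal_ratCast, Complex.ofReal_re]
  · rw [crbil_apply, crbil_apply]
    congr 1
    refine Finset.sum_congr rfl fun σ _ => ?_
    rw [theta_smul, theta_smul]
    have h1 : dz t Φ z (mv t j σ x) * dz t Φ z (mv t j σ y) = 1 := by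
      have h2 : z * starRingEnd ℂ z = 1 := by
        rw [Complex.mul_conj, Complex.normSq_eq_norm_sq, hz]
        norm_num
      by_cases h : j.comp (σ • x.2) ∈ Φ (t x.1)
      · rw [dz_pos t j z σ x h, dz_neg t j z σ y ((hxy σ).1 h), h2]
      · have h' : j.comp (σ • y.2) ∈ Φ (t y.1) := by
          by_contra h3
          exact h ((hxy σ).2 h3)
        rw [dz_neg t j z σ x h, dz_pos t j z σ y h', mul_comm, h2]
    linear_combination (j (σ lam) * theta t hΦ (u 0) (mv t j σ x) *
      theta t hΦ (u 1) (mv t j σ y)) * h1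

include hΦ in
theorem cpair_expand (x y : XX E t L)
    (hxy : ∀ σ : L ≃ₐ[ℚ] L, j.comp (σ • x.2) ∈ Φ (t x.1) ↔ j.comp (σ • y.2) ∉ Φ (t y.1)) :
    ∃ (n : ℕ) (a : Fin n → L) (B : Fin n → MultilinearMap ℚ (fun _ : Fin 2 => ∀ a, E (t a)) ℚ),
      (∀ r, HodgeMul (per Φ t) (B r)) ∧ ∀ v : Fin 2 → ∀ a, E (t a),
        chi E t L (v 0) x * chi E t L (v 1) y = ∑ r, a r * ((B r v : ℚ) : L) := by
  classical
  have hB := traceForm_nondegenerate ℚ L
  let b := Module.finBasis ℚ L
  let b' := (Algebra.traceForm ℚ L).dualBasis hB b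
  refine ⟨finrank ℚ L, fun r => b' r, fun r => cbil t (b r) x y,
    fun r => hodge_cbil hΦ t j (b r) x y hxy, fun v => ?_⟩
  set w := chi E t L (v 0) x * chi E t L (v 1) y with hw
  have h1 : w = ∑ r, (b'.repr w r) • b' r := (b'.sum_repr w).symm
  have h2 : ∀ r, b'.repr w r = cbil t (b r) x y v := by
    intro r
    rw [cbil_apply, ← hw]
    have h3 := LinearMap.BilinForm.dualBasis_repr_apply (B := Algebra.traceForm ℚ L) hB b w r
    rw [h3, Algebra.traceForm_apply, mul_comm]
  conv_lhs => rw [h1]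
  refine Finset.sum_congr rfl fun r _ => ?_
  rw [h2 r, Rat.smul_def, mul_comm]

variable {m : ℕ}

include hΦ in
theorem cmono_mem (I : Fin m × Fin 2 → XX E t L) (e : Perm (Fin m × Fin 2))
    (he : ∀ s, ∀ σ : L ≃ₐ[ℚ] L, j.comp (σ • (I (e (s, 0))).2) ∈ Φ (t (I (e (s, 0))).1) ↔
      j.comp (σ • (I (e (s, 1))).2) ∉ Φ (t (I (e (s, 1))).1)) :
    (fun v : Fin m × Fin 2 → ∀ a, E (t a) => ∏ l, chi E t L (v l) (I l)) ∈
      Submodule.span L {g | ∃ s ∈ prodSet (per Φ t) m, g = fun x => ((s x : ℚ) : L)} := by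
  classical
  have h1 := fun s => cpair_expand hΦ t j (I (e (s, 0))) (I (e (s, 1))) (he s)
  choose n a B hB hv using h1
  have h2 : (fun v : Fin m × Fin 2 → ∀ a, E (t a) => ∏ l, chi E t L (v l) (I l)) =
      ∑ ρ : ∀ s, Fin (n s), (∏ s, a s (ρ s)) •
        (fun v : Fin m × Fin 2 → ∀ a, E (t a) =>
          ((∏ s, B s (ρ s) (fun ε => v (e (s, ε))) : ℚ) : L)) := by
    funext v
    rw [Finset.sum_apply, ← Equiv.prod_comp e, Fintype.prod_prod_type]
    simp only [Fin.prod_univ_two]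
    rw [Finset.prod_congr rfl (fun s _ => hv s (fun ε => v (e (s, ε)))), Finset.prod_univ_sum,
      Fintype.piFinset_univ]
    refine Finset.sum_congr rfl fun ρ _ => ?_
    rw [Finset.prod_mul_distrib, Pi.smul_apply, smul_eq_mul, Rat.cast_prod]
  rw [h2]
  refine Submodule.sum_mem _ fun ρ _ => Submodule.smul_mem _ _ (Submodule.subset_span ?_)
  exact ⟨_, ⟨e, fun s => B s (ρ s), fun s => hB s (ρ s), rfl⟩, rfl⟩

/-- The function on the Galois group given by an embedding and the CM types. -/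
def sg (Φ : ∀ i, Set (E i →+* ℂ)) (j : L →+* ℂ) (x : Σ i, (E i →+* L)) : (L ≃ₐ[ℚ] L) → ℤ := by
  classical
  exact fun σ => if j.comp (σ • x.2) ∈ Φ x.1 then 1 else -1

theorem sg_pos {x : Σ i, (E i →+* L)} {σ : L ≃ₐ[ℚ] L} (h : j.comp (σ • x.2) ∈ Φ x.1) :
    sg Φ j x σ = 1 := by
  unfold sg
  exact if_pos h

theorem sg_neg {x : Σ i, (E i →+* L)} {σ : L ≃ₐ[ℚ] L} (h : j.comp (σ • x.2) ∉ Φ x.1) :
    sg Φ j x σ = -1 := by
  unfold sg
  exact if_neg h

/-- The conjugate embedding. -/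
def inj (x : Σ i, (E i →+* L)) : Σ i, (E i →+* L) := ⟨x.1, cbar x.2⟩

theorem inj_inj (x : Σ i, (E i →+* L)) : inj (inj x) = x := by
  obtain ⟨i, φ⟩ := x
  exact congrArg (Sigma.mk i) (cbar_cbar φ)

include hΦ in
theorem sg_inj (x : Σ i, (E i →+* L)) (σ : L ≃ₐ[ℚ] L) : sg Φ j (inj x) σ = -sg Φ j x σ := by
  obtain ⟨i, φ⟩ := x
  have h3 : j.comp (σ • cbar φ) = ComplexEmbedding.conjugate (j.comp (σ • φ)) := by
    rw [← comp_cbar]
    rfl
  by_cases h4 : j.comp (σ • φ) ∈ Φ i
  · have h5 : j.comp (σ • cbar φ) ∉ Φ i := by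
      rw [h3]
      exact (hΦ i _).1 h4
    rw [sg_pos j (x := ⟨i, φ⟩) h4]
    exact sg_neg j h5
  · have h5 : j.comp (σ • cbar φ) ∈ Φ i := by
      rw [h3]
      exact conj_mem hΦ h4
    rw [sg_neg j (x := ⟨i, φ⟩) h4, neg_neg]
    exact sg_pos j h5

/-- The linear relations between the functions `sg Φ j x` are generated by the equalities between
these functions up to sign. -/
def Stable (Φ : ∀ i, Set (E i →+* ℂ)) (j : L →+* ℂ) : Prop := by
  classical
  exact ∀ c : (Σ i, (E i →+* L)) → ℤ, (∀ x, c (inj x) = -c x) →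
    (∀ σ : L ≃ₐ[ℚ] L, ∑ x, c x * sg Φ j x σ = 0) →
    ∀ x, ∑ y ∈ Finset.univ.filter (fun y => sg Φ j y = sg Φ j x), c y = 0

include hΦ in
/-- **Main criterion.** All Hodge classes are linear combinations of wedge products of
Hodge classes of degree two. -/
theorem hodge_of_stable (h : ∀ i, ∀ ψ : E i →+* ℂ, ∃ φ : E i →+* L, j.comp φ = ψ)
    (hst : Stable Φ j)
    (f : (∀ a, E (t a)) [⋀^Fin m × Fin 2]→ₗ[ℚ] ℚ) (hf : IsHodge (per Φ t) f) :
    f ∈ divisorial (per Φ t) m := by
  classical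
  obtain ⟨c, hcf⟩ := form_coeff t j h f.toMultilinearMap
  -- the balanced condition
  have hbal : ∀ I : Fin m × Fin 2 → XX E t L, c I ≠ 0 →
      ∃ e : Perm (Fin m × Fin 2), ∀ s, ∀ σ : L ≃ₐ[ℚ] L,
        j.comp (σ • (I (e (s, 0))).2) ∈ Φ (t (I (e (s, 0))).1) ↔
          j.comp (σ • (I (e (s, 1))).2) ∉ Φ (t (I (e (s, 1))).1) := by
    intro I hI
    have h1 := balanced_of_hodge t j hΦ h f hf c hcf I hI
    let a : Fin m × Fin 2 → Σ i, (E i →+* L) := fun l => ⟨t (I l).1, (I l).2⟩
    have h1' : ∀ σ : L ≃ₐ[ℚ] L, ∑ l, sg Φ j (a l) σ = 0 := by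
      intro σ
      rw [← h1 σ]
      refine Finset.sum_congr rfl fun l _ => ?_
      by_cases h2 : j.comp (σ • (I l).2) ∈ Φ (t (I l).1)
      · rw [if_pos h2]
        exact sg_pos j h2
      · rw [if_neg h2]
        exact sg_neg j h2
    let N : (Σ i, (E i →+* L)) → ℤ := fun y => ((Finset.univ.filter (fun l => a l = y)).card : ℤ)
    have hNsum : ∀ g : (Σ i, (E i →+* L)) → ℤ, ∑ y, N y * g y = ∑ l, g (a l) := by
      intro g
      have h3 : ∀ y, N y * g y = ∑ l, if a l = y then g y else 0 := by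
        intro y
        rw [← Finset.sum_filter, Finset.sum_const, nsmul_eq_mul]
      rw [Finset.sum_congr rfl (fun y _ => h3 y), Finset.sum_comm]
      refine Finset.sum_congr rfl fun l _ => ?_
      rw [Finset.sum_ite_eq Finset.univ (a l), if_pos (Finset.mem_univ _)]
    have hNinv : ∀ g : (Σ i, (E i →+* L)) → ℤ, ∑ y, N (inj y) * g y = ∑ l, g (inj (a l)) := by
      intro g
      rw [← hNsum (fun y => g (inj y))]
      refine Finset.sum_nbij' inj inj (fun _ _ => Finset.mem_univ _)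
        (fun _ _ => Finset.mem_univ _) (fun y _ => inj_inj y) (fun y _ => inj_inj y)
        (fun y _ => ?_)
      rw [inj_inj]
    have hst' := hst
    unfold Stable at hst'
    have h2 := hst' (fun y => N y - N (inj y)) (fun y => by rw [inj_inj]; ring) (fun σ => by
      simp only [sub_mul, Finset.sum_sub_distrib]
      rw [hNsum (fun y => sg Φ j y σ), hNinv (fun y => sg Φ j y σ), h1' σ]
      simp only [sg_inj hΦ j, Finset.sum_neg_distrib, h1' σ, neg_zero, sub_zero])
    let Y := {g : (L ≃ₐ[ℚ] L) → ℤ // ∃ x, sg Φ j x = g}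
    have hYfin : Finite Y := by
      have h3 : Finite (Set.range (sg Φ j)) := Set.finite_range _
      exact h3
    let _ : Fintype Y := Fintype.ofFinite Y
    let invY : Y → Y := fun g => ⟨-g.1, by
      obtain ⟨x, hx⟩ := g.2
      exact ⟨inj x, by funext σ; rw [sg_inj hΦ j, Pi.neg_apply, ← hx]⟩⟩
    have hinvY : ∀ g, invY (invY g) = g := fun g => Subtype.ext (neg_neg g.1)
    have hneY : ∀ g, invY g ≠ g := by
      rintro ⟨g, x, rfl⟩ hg
      have h3 := congrFun (congrArg Subtype.val hg) 1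
      change -sg Φ j x 1 = sg Φ j x 1 at h3
      by_cases h4 : j.comp ((1 : L ≃ₐ[ℚ] L) • x.2) ∈ Φ x.1
      · rw [sg_pos j h4] at h3
        omega
      · rw [sg_neg j h4] at h3
        omega
    let aY : Fin m × Fin 2 → Y := fun l => ⟨sg Φ j (a l), a l, rfl⟩
    obtain ⟨e, he⟩ := exists_matching hinvY hneY aY (by
      rintro ⟨g, x, rfl⟩
      have h3 := h2 x
      rw [Finset.sum_sub_distrib, Finset.sum_filter, Finset.sum_filter] at h3
      have h4 : ∑ y, (if sg Φ j y = sg Φ j x then N y else 0) =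
          ((Finset.univ.filter (fun l => aY l = ⟨sg Φ j x, x, rfl⟩)).card : ℤ) := by
        have h5 : ∀ y, (if sg Φ j y = sg Φ j x then N y else 0) =
            N y * (if sg Φ j y = sg Φ j x then 1 else 0) := by
          intro y
          split_ifs <;> ring
        rw [Finset.sum_congr rfl (fun y _ => h5 y), hNsum, Finset.sum_boole]
        congr 2
        ext l
        simp only [Finset.mem_filter, Finset.mem_univ, true_and]
        exact ⟨fun h6 => Subtype.ext h6, fun h6 => congrArg Subtype.val h6⟩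
      have h4' : ∑ y, (if sg Φ j y = sg Φ j x then N (inj y) else 0) =
          ((Finset.univ.filter (fun l => aY l = invY ⟨sg Φ j x, x, rfl⟩)).card : ℤ) := by
        have h5 : ∀ y, (if sg Φ j y = sg Φ j x then N (inj y) else 0) =
            N (inj y) * (if sg Φ j y = sg Φ j x then 1 else 0) := by
          intro y
          split_ifs <;> ring
        rw [Finset.sum_congr rfl (fun y _ => h5 y), hNinv, Finset.sum_boole]
        congr 2
        ext l
        simp only [Finset.mem_filter, Finset.mem_univ, true_and]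
        constructor
        · intro h6
          apply Subtype.ext
          change sg Φ j (a l) = -sg Φ j x
          rw [← h6]
          funext σ
          rw [Pi.neg_apply, sg_inj hΦ j, neg_neg]
        · intro h6
          have h7 : sg Φ j (a l) = -sg Φ j x := congrArg Subtype.val h6
          funext σ
          rw [sg_inj hΦ j, h7, Pi.neg_apply, neg_neg]
      rw [h4, h4'] at h3
      omega) m (by
      rw [Fintype.card_prod, Fintype.card_fin, Fintype.card_fin, mul_comm])
    refine ⟨e, fun s σ => ?_⟩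
    have h3 := congrFun (congrArg Subtype.val (he s)) σ
    change sg Φ j (a (e (s, 1))) σ = -sg Φ j (a (e (s, 0))) σ at h3
    constructor
    · intro h4 h5
      rw [sg_pos j (x := a (e (s, 0))) h4, sg_pos j (x := a (e (s, 1))) h5] at h3
      omega
    · intro h4
      by_contra h5
      rw [sg_neg j (x := a (e (s, 0))) h5, sg_neg j (x := a (e (s, 1))) h4] at h3
      omega
  -- membership in the span over `L`
  have hL : (fun v : Fin m × Fin 2 → ∀ a, E (t a) => ((f v : ℚ) : L)) ∈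
      Submodule.span L {g | ∃ s ∈ prodSet (per Φ t) m, g = fun x => ((s x : ℚ) : L)} := by
    have h1 : (fun v : Fin m × Fin 2 → ∀ a, E (t a) => ((f v : ℚ) : L)) =
        ∑ I : Fin m × Fin 2 → XX E t L, c I •
          (fun v : Fin m × Fin 2 → ∀ a, E (t a) => ∏ l, chi E t L (v l) (I l)) := by
      funext v
      rw [Finset.sum_apply]
      exact hcf v
    rw [h1]
    refine Submodule.sum_mem _ fun I _ => ?_
    by_cases hI : c I = 0
    · rw [hI, zero_smul]
      exact Submodule.zero_mem _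
    · obtain ⟨e, he⟩ := hbal I hI
      exact Submodule.smul_mem _ _ (cmono_mem hΦ t j I e he)
  have hQ := span_descent _ _ hL
  -- alternation
  have hA : altFun (R := ℚ) (fun v => f v) ∈
      Submodule.map (altFun (R := ℚ)) (Submodule.span ℚ (prodSet (per Φ t) m)) :=
    Submodule.mem_map_of_mem hQ
  rw [Submodule.map_span, altFun_alt] at hA
  let K : ((∀ a, E (t a)) [⋀^Fin m × Fin 2]→ₗ[ℚ] ℚ) →ₗ[ℚ] ((Fin m × Fin 2 → ∀ a, E (t a)) → ℚ) :=
    { toFun := fun g v => g v
      map_add' := fun _ _ => rfl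
      map_smul' := fun _ _ => rfl }
  have hKinj : Function.Injective K := fun g g' h => AlternatingMap.ext fun v => congrFun h v
  set 𝒯 : Set ((∀ a, E (t a)) [⋀^Fin m × Fin 2]→ₗ[ℚ] ℚ) :=
    {g | ∃ B : Fin m → (∀ a, E (t a)) [⋀^Fin 2]→ₗ[ℚ] ℚ, (∀ s, IsHodge (per Φ t) (B s)) ∧
        ∀ v, g v = ∑ σ : Perm (Fin m × Fin 2), (Perm.sign σ : ℤ) *
          ∏ s, B s ![v (σ (s, 0)), v (σ (s, 1))]} with h𝒯
  have hsub : altFun (R := ℚ) '' prodSet (per Φ t) m ⊆ (Submodule.span ℚ 𝒯).map K := by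
    rintro _ ⟨_, ⟨e, B, hB, rfl⟩, rfl⟩
    let A : Fin m → (∀ a, E (t a)) [⋀^Fin 2]→ₗ[ℚ] ℚ := fun s =>
      MultilinearMap.alternatization (B s)
    let g : (∀ a, E (t a)) [⋀^Fin m × Fin 2]→ₗ[ℚ] ℚ :=
      MultilinearMap.alternatization (prodMap (fun s => (A s).toMultilinearMap))
    have hg : ∀ v, g v = ∑ σ : Perm (Fin m × Fin 2), ((Perm.sign σ : ℤ) : ℚ) *
        ∏ s, A s (fun ε => v (σ (s, ε))) := by
      intro v
      change MultilinearMap.alternatization _ v = _
      rw [MultilinearMap.alternatization_apply]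
      refine Finset.sum_congr rfl fun σ _ => ?_
      rw [Units.smul_def, zsmul_eq_mul]
      rfl
    have hgT : g ∈ 𝒯 := by
      refine ⟨A, fun s => (hB s).alternatization, fun v => ?_⟩
      rw [hg v]
      refine Finset.sum_congr rfl fun σ _ => ?_
      congr 1
      refine Finset.prod_congr rfl fun s _ => ?_
      congr 1
      funext ε
      fin_cases ε <;> rfl
    refine ⟨(((Perm.sign e : ℤ) : ℚ) / 2 ^ m) • g,
      Submodule.smul_mem _ _ (Submodule.subset_span hgT), ?_⟩
    rw [map_smul]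
    funext v
    have h2 : (K g) v = (2 : ℚ) ^ m * ∑ σ : Perm (Fin m × Fin 2), ((Perm.sign σ : ℤ) : ℚ) *
        ∏ s, B s (fun ε => v (σ (s, ε))) := by
      change g v = _
      rw [hg v]
      exact alt_prod B v
    rw [Pi.smul_apply, h2, smul_eq_mul]
    have h3 : altFun (R := ℚ) (fun v => ∏ s, B s (fun ε => v (e (s, ε)))) v =
        ((Perm.sign e : ℤ) : ℚ) * ∑ σ : Perm (Fin m × Fin 2), ((Perm.sign σ : ℤ) : ℚ) *
          ∏ s, B s (fun ε => v (σ (s, ε))) := by
      change ∑ σ : Perm (Fin m × Fin 2), ((Perm.sign σ : ℤ) : ℚ) *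
        ∏ s, B s (fun ε => v (σ (e (s, ε)))) = _
      rw [Finset.mul_sum]
      refine Fintype.sum_equiv (Equiv.mulRight e) _ _ fun σ => ?_
      rw [Equiv.coe_mulRight, map_mul, Units.val_mul, Int.cast_mul]
      have h4 : ((Perm.sign e : ℤ) : ℚ) * ((Perm.sign e : ℤ) : ℚ) = 1 := by
        rw [← Int.cast_mul, ← Units.val_mul, Int.units_mul_self, Units.val_one, Int.cast_one]
      have h5 : ∏ s, B s (fun ε => v (σ (e (s, ε)))) = ∏ s, B s (fun ε => v ((σ * e) (s, ε))) := rfl
      rw [h5]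
      linear_combination -(((Perm.sign σ : ℤ) : ℚ) * ∏ s, B s (fun ε => v ((σ * e) (s, ε)))) * h4
    rw [h3]
    have h6 : (2 : ℚ) ^ m ≠ 0 := by positivity
    field_simp
  have h1 : ((Fintype.card (Fin m × Fin 2)).factorial : ℚ) • (fun v => f v) ∈
      (Submodule.span ℚ 𝒯).map K := Submodule.span_le.2 hsub hA
  have hne : ((Fintype.card (Fin m × Fin 2)).factorial : ℚ) ≠ 0 :=
    Nat.cast_ne_zero.2 (Nat.factorial_ne_zero _)
  have h2 : (fun v => f v) ∈ (Submodule.span ℚ 𝒯).map K := by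
    have h3 := Submodule.smul_mem _ (((Fintype.card (Fin m × Fin 2)).factorial : ℚ))⁻¹ h1
    rwa [smul_smul, inv_mul_cancel₀ hne, one_smul] at h3
  obtain ⟨f', hf', hff⟩ := h2
  have h3 : f' = f := hKinj hff
  rw [← h3]
  exact hf'

end

end Pool.Agent.H194R3.CM
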