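import Mathlib
import Pool.Agent.H194R3.CM.Flip
import Pool.Agent.H194R3.CM.Odd
import Pool.Agent.H194R3.CM.General

/-!
# Families of CM fields of odd half degree with pair-transitive real subfields
-/

set_option linter.unusedSectionVars false
set_option linter.unusedVariables false

namespace Pool.Agent.H194R3.CM

open NumberField Module Equiv Pool.Agent.H204R3.CM

/-- If the pairs of elements of different blocks are flipped, a relation between the translates of
`u` splits into relations on the blocks. -/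
theorem core_block {X I : Type*} [Fintype X] [DecidableEq X] [DecidableEq I] {G : Type*} [Group G]
    [Fintype G] [MulAction G X]
    (inv : X → X) (hG : ∀ (g : G) (x : X), g • inv x = inv (g • x)) (p : X → I)
    (u : X → ℤ) (hua : ∀ x, u (inv x) = -u x)
    (hflip : ∀ x y, p y ≠ p x →
      ∃ g : G, (g • x = x ∧ g • y = inv y) ∨ (g • x = inv x ∧ g • y = y))
    (c : X → ℤ) (hrel : ∀ g : G, ∑ x, c x * u (g • x) = 0) :
    (∀ i, ∀ g : G, ∑ x ∈ Finset.univ.filter (fun x => p x = i), c x * u (g • x) = 0) ∧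
      ∀ x y, p y ≠ p x → ∑ g : G, u (g • x) * u (g • y) = 0 := by
  classical
  let A : X → X → ℤ := fun x y => ∑ g : G, u (g • x) * u (g • y)
  have hAinv : ∀ (h : G) x y, A (h • x) (h • y) = A x y := by
    intro h x y
    simp only [A, ← mul_smul]
    exact Fintype.sum_equiv (Equiv.mulRight h) _ _ fun g => rfl
  have hA1 : ∀ x y, A (inv x) y = -A x y := by
    intro x y
    simp only [A, hG, hua, neg_mul, Finset.sum_neg_distrib]
  have hA2 : ∀ x y, A x (inv y) = -A x y := by
    intro x y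
    simp only [A, hG, hua, mul_neg, Finset.sum_neg_distrib]
  have hA0 : ∀ x y, p y ≠ p x → A x y = 0 := by
    intro x y h1
    obtain ⟨g, ⟨hg1, hg2⟩ | ⟨hg1, hg2⟩⟩ := hflip x y h1
    · have h3 := hAinv g x y
      rw [hg1, hg2, hA2] at h3
      omega
    · have h3 := hAinv g x y
      rw [hg1, hg2, hA1] at h3
      omega
  refine ⟨fun i => ?_, hA0⟩
  have h1 : ∀ y, ∑ x, c x * A x y = 0 := by
    intro y
    simp only [A, Finset.mul_sum]
    rw [Finset.sum_comm]
    refine Finset.sum_eq_zero fun g _ => ?_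
    have h2 : ∑ x, c x * (u (g • x) * u (g • y)) = (∑ x, c x * u (g • x)) * u (g • y) := by
      rw [Finset.sum_mul]
      exact Finset.sum_congr rfl fun x _ => by ring
    rw [h2, hrel g, zero_mul]
  have h2 : ∀ y, p y = i → ∑ x ∈ Finset.univ.filter (fun x => p x = i), c x * A x y = 0 := by
    intro y hy
    rw [← h1 y, Finset.sum_filter]
    refine Finset.sum_congr rfl fun x _ => ?_
    split_ifs with h
    · rfl
    · rw [hA0 x y (by rw [hy]; exact fun h' => h h'.symm), mul_zero]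
  have h3 : ∑ g : G, (∑ x ∈ Finset.univ.filter (fun x => p x = i), c x * u (g • x)) ^ 2 = 0 := by
    have h4 : ∀ g : G, (∑ x ∈ Finset.univ.filter (fun x => p x = i), c x * u (g • x)) ^ 2 =
        ∑ y ∈ Finset.univ.filter (fun x => p x = i),
          ∑ x ∈ Finset.univ.filter (fun x => p x = i),
            c y * (c x * (u (g • x) * u (g • y))) := by
      intro g
      rw [sq, Finset.sum_mul_sum]
      exact Finset.sum_congr rfl fun x _ => Finset.sum_congr rfl fun y _ => by ring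
    rw [Finset.sum_congr rfl (fun g _ => h4 g), Finset.sum_comm]
    refine Finset.sum_eq_zero fun y hy => ?_
    rw [Finset.sum_comm]
    have h5 := h2 y (Finset.mem_filter.1 hy).2
    have h6 : ∑ x ∈ Finset.univ.filter (fun x => p x = i),
        ∑ g : G, c y * (c x * (u (g • x) * u (g • y))) =
        c y * ∑ x ∈ Finset.univ.filter (fun x => p x = i), c x * A x y := by
      simp only [A, Finset.mul_sum]
    rw [h6, h5, mul_zero]
  intro g
  have h4 := (Finset.sum_eq_zero_iff_of_nonneg (fun g _ => sq_nonneg _)).1 h3 g (Finset.mem_univ g)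
  exact pow_eq_zero_iff (two_ne_zero) |>.1 h4

/-- Two embeddings of a CM field which agree on the maximal real subfield are equal or complex
conjugate. -/
theorem eq_or_conj {E : Type*} [Field E] [NumberField E] [IsCMField E] (φ ψ : E →+* ℂ)
    (h : ∀ x ∈ maximalRealSubfield E, φ x = ψ x) :
    ψ = φ ∨ ψ = ComplexEmbedding.conjugate φ := by
  obtain ⟨y, hy⟩ : ∃ y : E, IsCMField.complexConj E y ≠ y := by
    by_contra hall
    push Not at hall
    apply IsCMField.complexConj_ne_one E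
    ext x
    exact hall x
  obtain ⟨δ, hδ⟩ : ∃ δ, δ = y - IsCMField.complexConj E y := ⟨_, rfl⟩
  have hδ0 : δ ≠ 0 := by
    rw [hδ]
    exact sub_ne_zero.2 (fun h => hy h.symm)
  have hδc : IsCMField.complexConj E δ = -δ := by
    rw [hδ, map_sub, IsCMField.complexConj_apply_apply]
    ring
  have h2 : δ * δ ∈ maximalRealSubfield E := by
    rw [← IsCMField.complexConj_eq_self_iff, map_mul, hδc]
    ring
  have h20 : (2 : E) ≠ 0 := two_ne_zero
  have hdec : ∀ x : E, ∃ a ∈ maximalRealSubfield E, ∃ b ∈ maximalRealSubfield E,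
      x = a + b * δ ∧ IsCMField.complexConj E x = a - b * δ := by
    intro x
    refine ⟨(x + IsCMField.complexConj E x) / 2, ?_, (x - IsCMField.complexConj E x) / (2 * δ), ?_,
      ?_, ?_⟩
    · rw [← IsCMField.complexConj_eq_self_iff, map_div₀, map_add,
        IsCMField.complexConj_apply_apply, map_ofNat, add_comm]
    · rw [← IsCMField.complexConj_eq_self_iff, map_div₀, map_sub, map_mul,
        IsCMField.complexConj_apply_apply, map_ofNat, hδc]
      field_simp
      ring
    · field_simp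
      ring
    · field_simp
      ring
  have h3 := h _ h2
  rw [map_mul, map_mul, mul_self_eq_mul_self_iff] at h3
  rcases h3 with h3 | h3
  · left
    ext x
    obtain ⟨a, ha, b, hb, hx, _⟩ := hdec x
    rw [hx, map_add, map_add, map_mul, map_mul, ← h a ha, ← h b hb, h3]
  · right
    ext x
    obtain ⟨a, ha, b, hb, hx, hx'⟩ := hdec x
    rw [ComplexEmbedding.conjugate_coe_eq, ← IsCMField.complexEmbedding_complexConj, hx', hx,
      map_add, map_sub, map_mul, map_mul, ← h a ha, ← h b hb, h3]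
    ring

section

variable {ι : Type*} [Fintype ι] {E : ι → Type*} [∀ i, Field (E i)] [∀ i, NumberField (E i)]
  [∀ i, IsCMField (E i)] {L : Type*} [Field L] [NumberField L] [IsGalois ℚ L]
  {Φ : ∀ i, Set (E i →+* ℂ)} (hΦ : ∀ i, IsCMType (Φ i)) (j : L →+* ℂ)

theorem res_eq {F : Type*} [Field F] [NumberField F] [IsCMField F] (x y : F →+* L)
    (h : (j.comp x).comp (maximalRealSubfield F).subtype =
      (j.comp y).comp (maximalRealSubfield F).subtype) : x = y ∨ x = cbar y := by
  have h1 := eq_or_conj (j.comp y) (j.comp x) (fun a ha => (RingHom.congr_fun h ⟨a, ha⟩).symm)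
  rcases h1 with h1 | h1
  · exact Or.inl (comp_injective j h1)
  · rw [← comp_cbar] at h1
    exact Or.inr (comp_injective j h1)

include j in
/-- The condition on pairs for the Galois group. -/
theorem pair_transfer {F : Type*} [Field F] [NumberField F] [IsCMField F]
    (hF : PairTransitive (maximalRealSubfield F)) (x y x' y' : F →+* L)
    (h1 : y ≠ x) (h2 : y ≠ cbar x) (h1' : y' ≠ x') (h2' : y' ≠ cbar x') :
    ∃ g : L ≃ₐ[ℚ] L, ((g • x = x' ∨ g • x = cbar x') ∧ (g • y = y' ∨ g • y = cbar y')) ∨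
      ((g • x = y' ∨ g • x = cbar y') ∧ (g • y = x' ∨ g • y = cbar x')) := by
  let r : (F →+* L) → (maximalRealSubfield F →+* ℂ) := fun x =>
    (j.comp x).comp (maximalRealSubfield F).subtype
  obtain ⟨τ, hτ⟩ := hF (r x) (r y) (r x') (r y')
    (fun h => by
      rcases res_eq j y x h.symm with h | h
      · exact h1 h
      · exact h2 h)
    (fun h => by
      rcases res_eq j y' x' h.symm with h | h
      · exact h1' h
      · exact h2' h)
  obtain ⟨σ, hσ⟩ := exists_restrict j τ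
  have hr : ∀ z : F →+* L, r (σ • z) = τ.comp (r z) := by
    intro z
    ext a
    exact hσ (z a)
  refine ⟨σ, ?_⟩
  rcases hτ with ⟨h3, h4⟩ | ⟨h3, h4⟩
  · exact Or.inl ⟨res_eq j _ _ ((hr x).trans h3), res_eq j _ _ ((hr y).trans h4)⟩
  · exact Or.inr ⟨res_eq j _ _ ((hr x).trans h3), res_eq j _ _ ((hr y).trans h4)⟩

theorem sg_smul (σ τ : L ≃ₐ[ℚ] L) (x : Σ i, (E i →+* L)) :
    sg Φ j (σ • x) τ = sg Φ j x (τ * σ) := by
  have h1 : τ • (σ • x).2 = (τ * σ) • x.2 := by
    obtain ⟨i, φ⟩ := x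
    exact (mul_smul τ σ φ).symm
  by_cases h : j.comp ((τ * σ) • x.2) ∈ Φ x.1
  · rw [sg_pos j h]
    exact sg_pos j (by rw [h1]; exact h)
  · rw [sg_neg j h]
    exact sg_neg j (by rw [h1]; exact h)

include hΦ in
/-- **Stability of the families of odd type**, for all CM types. -/
theorem stable_of_odd (hemb : ∀ i, ∀ ψ : E i →+* ℂ, ∃ φ : E i →+* L, j.comp φ = ψ)
    (hodd : ∀ i, Odd (finrank ℚ (maximalRealSubfield (E i))))
    (hpair : ∀ i, PairTransitive (maximalRealSubfield (E i)))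
    (hflip : ∀ x y : Σ i, (E i →+* ℂ), y.1 ≠ x.1 → Flipped x y) :
    Stable Φ j := by
  classical
  intro c hc hrel
  let X := Σ i, (E i →+* L)
  let G := L ≃ₐ[ℚ] L
  let u : X → ℤ := fun x => sg Φ j x 1
  have hus : ∀ (g : G) (x : X), u (g • x) = sg Φ j x g := by
    intro g x
    change sg Φ j (g • x) 1 = _
    rw [sg_smul, one_mul]
  have hu : ∀ x, u x = 1 ∨ u x = -1 := by
    intro x
    by_cases h : j.comp ((1 : G) • x.2) ∈ Φ x.1
    · exact Or.inl (sg_pos j h)
    · exact Or.inr (sg_neg j h)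
  have hua : ∀ x, u (inj x) = -u x := fun x => sg_inj hΦ j x 1
  have hG : ∀ (g : G) (x : X), g • inj x = inj (g • x) := by
    rintro g ⟨a, φ⟩
    rfl
  let Jm : X → Σ i, (E i →+* ℂ) := fun x => ⟨x.1, j.comp x.2⟩
  have hJ : Function.Injective Jm := by
    rintro ⟨a, φ⟩ ⟨b, ψ⟩ h
    simp only [Jm, Sigma.mk.injEq] at h
    obtain ⟨rfl, h⟩ := h
    rw [comp_injective j (eq_of_heq h)]
  have hJinv : ∀ x, Jm (inj x) = bar (Jm x) := by
    rintro ⟨a, φ⟩
    simp only [Jm, inj, comp_cbar, bar]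
  obtain ⟨hblock, hcross⟩ := core_block (X := X) (G := G) inj hG (fun x => x.1) u hua
    (fun x y hxy => by
      obtain ⟨τ, hτ⟩ := hflip (Jm x) (Jm y) hxy
      obtain ⟨σ, hσ⟩ := exists_restrict j τ
      have hJσ : ∀ z : X, Jm (σ • z) = move τ (Jm z) := by
        rintro ⟨a, φ⟩
        exact congrArg (Sigma.mk a) (comp_smul_of_restrict j τ σ hσ φ)
      refine ⟨σ, ?_⟩
      rcases hτ with ⟨h3, h4⟩ | ⟨h3, h4⟩ | ⟨h3, h4⟩
      · refine Or.inl ⟨hJ ?_, hJ ?_⟩
        · rw [hJσ, h3]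
        · rw [hJσ, hJinv, h4]
      · refine Or.inr ⟨hJ ?_, hJ ?_⟩
        · rw [hJσ, hJinv, h3]
        · rw [hJσ, h4]
      · exfalso
        apply hxy
        exact (congrArg Sigma.fst h3).symm) c (fun g => by
      rw [← hrel g]
      exact Finset.sum_congr rfl fun x _ => by rw [hus])
  -- the relation on one block
  have hblock' : ∀ i, ∀ g : G, ∑ φ : E i →+* L, c ⟨i, φ⟩ * u ⟨i, g • φ⟩ = 0 := by
    intro i g
    rw [← hblock i g, Finset.sum_filter, Fintype.sum_sigma, Finset.sum_eq_single i]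
    · refine Finset.sum_congr rfl fun φ _ => ?_
      rw [if_pos rfl]
      rfl
    · intro b _ hb
      refine Finset.sum_eq_zero fun φ _ => ?_
      rw [if_neg hb]
    · intro h
      exact absurd (Finset.mem_univ _) h
  rintro ⟨i, φ₀⟩
  -- members of other blocks do not matter
  have hother : ∀ y : X, sg Φ j y = sg Φ j ⟨i, φ₀⟩ → y.1 = i := by
    intro y hy
    by_contra hne
    have h1 := hcross ⟨i, φ₀⟩ y hne
    have h2 : ∀ g : G, u (g • (⟨i, φ₀⟩ : X)) * u (g • y) = 1 := by
      intro g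
      have h3 : u (g • y) = u (g • (⟨i, φ₀⟩ : X)) := by
        rw [hus, hus, hy]
      rw [h3]
      rcases hu (g • (⟨i, φ₀⟩ : X)) with h | h <;> rw [h] <;> norm_num
    rw [Finset.sum_congr rfl (fun g _ => h2 g), Finset.sum_const, Finset.card_univ, nsmul_eq_mul,
      mul_one] at h1
    have h3 : 0 < Fintype.card G := Fintype.card_pos
    omega
  rw [Finset.sum_filter, Fintype.sum_sigma, Finset.sum_eq_single i (fun b _ hb =>
    Finset.sum_eq_zero fun φ _ => if_neg fun h => hb (hother _ h)) (fun h =>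
    absurd (Finset.mem_univ _) h)]
  by_cases hprim : ∃ (g : G) (x y : E i →+* L), u ⟨i, g • x⟩ * u ⟨i, g • y⟩ ≠ u ⟨i, x⟩ * u ⟨i, y⟩
  · have h1 := core_odd (X := E i →+* L) (G := G) cbar cbar_cbar cbar_ne (fun g x => rfl)
      (finrank ℚ (maximalRealSubfield (E i))) (hodd i) (by
        have h0 : finrank (maximalRealSubfield (E i)) (E i) = 2 :=
          Algebra.IsQuadraticExtension.finrank_eq_two _ _
        rw [card_emb j (hemb i), ← finrank_mul_finrank ℚ (maximalRealSubfield (E i)) (E i),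
          h0, mul_comm])
      (fun x y x' y' h1 h2 h1' h2' => pair_transfer j (hpair i) x y x' y' h1 h2 h1' h2')
      (fun x => u ⟨i, x⟩) (fun x => hu ⟨i, x⟩) (fun x => hua ⟨i, x⟩) hprim
      (fun x => c ⟨i, x⟩) (fun x => hc ⟨i, x⟩) (hblock' i)
    refine Finset.sum_eq_zero fun φ _ => ?_
    split_ifs
    · exact h1 φ
    · rfl
  · push Not at hprim
    have h1 : ∑ φ : E i →+* L, c ⟨i, φ⟩ = 0 := by
      have h2 : ∑ φ : E i →+* L, c ⟨i, φ⟩ = ∑ φ : E i →+* L, -c ⟨i, φ⟩ := by
        refine Finset.sum_nbij' cbar cbar (fun _ _ => Finset.mem_univ _)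
          (fun _ _ => Finset.mem_univ _) (fun y _ => cbar_cbar y) (fun y _ => cbar_cbar y)
          (fun y _ => ?_)
        have h3 := hc ⟨i, y⟩
        change c ⟨i, cbar y⟩ = -c ⟨i, y⟩ at h3
        rw [h3, neg_neg]
      rw [Finset.sum_neg_distrib] at h2
      omega
    have h2 : ∑ φ : E i →+* L, c ⟨i, φ⟩ * u ⟨i, φ⟩ = 0 := by
      have h3 := hblock' i 1
      simpa only [one_smul] using h3
    have h3 : ∀ φ : E i →+* L, 2 * (if sg Φ j ⟨i, φ⟩ = sg Φ j ⟨i, φ₀⟩ then c ⟨i, φ⟩ else 0) =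
        c ⟨i, φ⟩ + u ⟨i, φ₀⟩ * (c ⟨i, φ⟩ * u ⟨i, φ⟩) := by
      intro φ
      by_cases h4 : u ⟨i, φ⟩ = u ⟨i, φ₀⟩
      · have h5 : sg Φ j ⟨i, φ⟩ = sg Φ j ⟨i, φ₀⟩ := by
          funext g
          have h6 := hprim g φ φ₀
          rw [h4] at h6
          have h7 : u ⟨i, g • φ⟩ = sg Φ j ⟨i, φ⟩ g := hus g ⟨i, φ⟩
          have h8 : u ⟨i, g • φ₀⟩ = sg Φ j ⟨i, φ₀⟩ g := hus g ⟨i, φ₀⟩
          rw [← h7, ← h8]
          rcases hu ⟨i, φ₀⟩ with e1 | e1 <;> rcases hu ⟨i, g • φ⟩ with e2 | e2 <;>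
            rcases hu ⟨i, g • φ₀⟩ with e3 | e3 <;> rw [e1, e2, e3] at h6 <;> rw [e2, e3] <;>
            norm_num at h6
        rw [if_pos h5, h4]
        rcases hu ⟨i, φ₀⟩ with e1 | e1 <;> rw [e1] <;> ring
      · have h5 : ¬ sg Φ j ⟨i, φ⟩ = sg Φ j ⟨i, φ₀⟩ := fun h => h4 (congrFun h 1)
        rw [if_neg h5]
        rcases hu ⟨i, φ₀⟩ with e1 | e1 <;> rcases hu ⟨i, φ⟩ with e2 | e2 <;> rw [e1, e2] at h4 ⊢
        · exact absurd rfl h4
        · ring
        · ring
        · exact absurd rfl h4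
    have h4 : 2 * ∑ φ : E i →+* L, (if sg Φ j ⟨i, φ⟩ = sg Φ j ⟨i, φ₀⟩ then c ⟨i, φ⟩ else 0) = 0 := by
      rw [Finset.mul_sum, Finset.sum_congr rfl (fun φ _ => h3 φ), Finset.sum_add_distrib,
        ← Finset.mul_sum, h1, h2, mul_zero, add_zero]
    omega

end

end Pool.Agent.H194R3.CM
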