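import Mathlib
import Pool.Agent.H925R2.Core
import Pool.Agent.H925R2.TwoTrans

/-!
# Vectors `± 1`, permuted transitively on pairs of pairs

The group-theoretic core of the theorem on CM types over pair-transitive fields. The correlation
matrix is, up to the diagonal, a multiple of the matrix of a regular two-graph. This two-graph is
trivial if the number `n` of vertices is odd (a congruence modulo four), if `n - 1` is a prime
number and the correlation matrix is singular (integrality of eigenvalues), or if the group is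
transitive on triples.
-/

set_option linter.unusedSectionVars false
set_option linter.unusedVariables false

namespace Pool.Agent.H194R3.CM

open Pool.Agent.H925R2

theorem core_pair {X : Type*} [Fintype X] [DecidableEq X] {G : Type*} [Group G] [Fintype G]
    [MulAction G X]
    (inv : X → X) (hinv : ∀ x, inv (inv x) = x) (hne : ∀ x, inv x ≠ x)
    (hG : ∀ (g : G) (x : X), g • inv x = inv (g • x))
    (n : ℕ) (hn1 : 0 < n) (hcard : Fintype.card X = 2 * n)
    (hn : Odd n ∨ (n - 1).Prime ∨ ∀ x y : Fin 3 → X, (∀ i k, i ≠ k → x i ≠ x k ∧ x i ≠ inv (x k)) →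
      (∀ i k, i ≠ k → y i ≠ y k ∧ y i ≠ inv (y k)) → ∃ (g : G) (π : Equiv.Perm (Fin 3)),
        ∀ i, g • x i = y (π i) ∨ g • x i = inv (y (π i)))
    (hpair : ∀ x y x' y', y ≠ x → y ≠ inv x → y' ≠ x' → y' ≠ inv x' → ∃ g : G,
      ((g • x = x' ∨ g • x = inv x') ∧ (g • y = y' ∨ g • y = inv y')) ∨
      ((g • x = y' ∨ g • x = inv y') ∧ (g • y = x' ∨ g • y = inv x')))
    (u : X → ℤ) (hu : ∀ x, u x = 1 ∨ u x = -1) (hua : ∀ x, u (inv x) = -u x)
    (c : X → ℤ) (hc : ∀ x, c (inv x) = -c x)
    (hrel : ∀ g : G, ∑ x, c x * u (g • x) = 0) :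
    (∀ x, c x = 0) ∨ (∀ (g : G) (x y : X), u (g • x) * u (g • y) = u x * u y) ∨
      ∃ v : X → ℤ, (∀ x, v x = 1 ∨ v x = -1) ∧ (∀ x, v (inv x) = -v x) ∧
        (∀ (g : G) (x y : X), v (g • x) * v (g • y) = v x * v y) ∧
        ∀ g : G, ∑ x, u (g • x) * v x = 0 := by
  by_contra hcon
  rw [not_or, not_or] at hcon
  obtain ⟨hc0, hprim, hweil⟩ := hcon
  apply hc0
  classical
  let A : X → X → ℤ := fun x y => ∑ g : G, u (g • x) * u (g • y)
  have hAsymm : ∀ x y, A x y = A y x := by
    intro x y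
    exact Finset.sum_congr rfl fun g _ => mul_comm _ _
  have hAinv : ∀ (h : G) x y, A (h • x) (h • y) = A x y := by
    intro h x y
    simp only [A, ← mul_smul]
    exact Fintype.sum_equiv (Equiv.mulRight h) _ _ fun g => rfl
  have hA1 : ∀ x y, A (inv x) y = -A x y := by
    intro x y
    simp only [A, hG, hua, neg_mul, Finset.sum_neg_distrib]
  have hA2 : ∀ x y, A x (inv y) = -A x y := by
    intro x y
    simp only [A, hG, hua, mul_neg, Finset.sum_neg_distrib]
  push Not at hc0 hprim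
  obtain ⟨xc, hxc⟩ := hc0
  let N : ℤ := Fintype.card G
  have hN : 0 < N := by
    exact Int.natCast_pos.2 Fintype.card_pos
  have hu2 : ∀ x, u x * u x = 1 := by
    intro x
    rcases hu x with h | h <;> rw [h] <;> norm_num
  have hAxx : ∀ x, A x x = N := by
    intro x
    simp only [A, hu2, Finset.sum_const, Finset.card_univ, nsmul_eq_mul, mul_one, N]
  let R : Finset X := Finset.univ.filter (fun x => u x = 1)
  have hR : IsHalf inv R := by
    intro x
    simp only [R, Finset.mem_filter, Finset.mem_univ, true_and, hua]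
    rcases hu x with h | h <;> rw [h] <;> norm_num
  have hRn : R.card = n := by
    have := hR.card hinv
    omega
  have hRD : ∀ x ∈ R, ∀ y ∈ R, x ≠ y → y ≠ x ∧ y ≠ inv x := by
    intro x hx y hy hxy
    refine ⟨hxy.symm, fun h => ?_⟩
    rw [h] at hy
    exact ((hR x).1 hx) hy
  have hAR : ∀ y, ∑ x ∈ R, c x * A x y = 0 := by
    intro y
    have h1 : ∑ x, c x * A x y = 0 := by
      simp only [A, Finset.mul_sum]
      rw [Finset.sum_comm]
      refine Finset.sum_eq_zero fun g _ => ?_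
      have h2 : ∑ x, c x * (u (g • x) * u (g • y)) = (∑ x, c x * u (g • x)) * u (g • y) := by
        rw [Finset.sum_mul]
        exact Finset.sum_congr rfl fun x _ => by ring
      rw [h2, hrel g, zero_mul]
    have h2 := hR.sum_symm hinv (fun x => c x * A x y) (fun x => by
      simp only [hc, hA1]; ring)
    rw [h1] at h2
    omega
  -- it is enough to treat the elements of `R`
  suffices hmain : ∀ y ∈ R, c y = 0 by
    intro y
    by_cases hy : y ∈ R
    · exact hmain y hy
    · have h1 : inv y ∈ R := by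
        by_contra h
        exact hy ((hR y).2 h)
      have h2 := hmain _ h1
      rw [hc] at h2
      omega
  by_cases hA0 : ∀ x y, y ≠ x → y ≠ inv x → A x y = 0
  · intro y hy
    have h1 := hAR y
    rw [Finset.sum_eq_single y (fun x hx hxy => by
      rw [hA0 x y (hRD x hx y hy hxy).1 (hRD x hx y hy hxy).2, mul_zero])
      (fun h => absurd hy h), hAxx] at h1
    rcases mul_eq_zero.1 h1 with h | h
    · exact h
    · exact absurd h hN.ne'
  push Not at hA0
  obtain ⟨x₀, y₀, hx₀, hy₀, hxy₀⟩ := hA0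
  obtain ⟨a, ha⟩ : ∃ a, a = A x₀ y₀ := ⟨_, rfl⟩
  rw [← ha] at hxy₀
  have hApm : ∀ x y, y ≠ x → y ≠ inv x → A x y = a ∨ A x y = -a := by
    intro x y h1 h2
    obtain ⟨g, ⟨h3, h4⟩ | ⟨h3, h4⟩⟩ := hpair x y x₀ y₀ h1 h2 hx₀ hy₀
    · rw [← hAinv g x y]
      rcases h3 with h3 | h3 <;> rcases h4 with h4 | h4 <;> rw [h3, h4]
      · exact Or.inl ha.symm
      · right; rw [hA2, ha]
      · right; rw [hA1, ha]
      · left; rw [hA1, hA2, neg_neg, ha]
    · rw [← hAinv g x y]
      rcases h3 with h3 | h3 <;> rcases h4 with h4 | h4 <;> rw [h3, h4]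
      · left; rw [hAsymm, ha]
      · right; rw [hA2, hAsymm, ha]
      · right; rw [hA1, hAsymm, ha]
      · left; rw [hA1, hA2, neg_neg, hAsymm, ha]
  have hSex : ∀ x y, ∃ s : ℤ, ((y = x ∨ y = inv x) → s = 0) ∧
      (y ≠ x → y ≠ inv x → (A x y = a * s ∧ (s = 1 ∨ s = -1))) := by
    intro x y
    by_cases h1 : y = x
    · exact ⟨0, fun _ => rfl, fun h => absurd h1 h⟩
    by_cases h2 : y = inv x
    · exact ⟨0, fun _ => rfl, fun _ h => absurd h2 h⟩
    rcases hApm x y h1 h2 with h | h
    · exact ⟨1, fun h' => absurd h' (by tauto), fun _ _ => ⟨by rw [h, mul_one], Or.inl rfl⟩⟩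
    · exact ⟨-1, fun h' => absurd h' (by tauto), fun _ _ => ⟨by rw [h]; ring, Or.inr rfl⟩⟩
  choose S hS0 hS1 using hSex
  have hSsymm : ∀ x y, S x y = S y x := by
    intro x y
    by_cases h1 : y = x
    · rw [h1]
    by_cases h2 : y = inv x
    · rw [hS0 x y (Or.inr h2), hS0 y x (Or.inr (by rw [h2, hinv]))]
    · have h3 := (hS1 x y h1 h2).1
      have h4 := (hS1 y x (fun h => h1 h.symm) (fun h => h2 (by rw [h, hinv]))).1
      rw [hAsymm, h4] at h3
      exact (mul_left_cancel₀ hxy₀ h3).symm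
  have hSneg1 : ∀ x y, S (inv x) y = -S x y := by
    intro x y
    by_cases h1 : y = x
    · rw [hS0 x y (Or.inl h1), hS0 (inv x) y (Or.inr (by rw [h1, hinv])), neg_zero]
    by_cases h2 : y = inv x
    · rw [hS0 x y (Or.inr h2), hS0 (inv x) y (Or.inl h2), neg_zero]
    · have h3 := (hS1 x y h1 h2).1
      have h4 := (hS1 (inv x) y h2 (by rw [hinv]; exact h1)).1
      rw [hA1, h3] at h4
      apply mul_left_cancel₀ hxy₀
      rw [← h4]
      ring
  have hSneg2 : ∀ x y, S x (inv y) = -S x y := by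
    intro x y
    rw [hSsymm, hSneg1, hSsymm]
  have hSinv : ∀ (g : G) x y, S (g • x) (g • y) = S x y := by
    intro g x y
    by_cases h1 : y = x
    · rw [hS0 x y (Or.inl h1), hS0 (g • x) (g • y) (Or.inl (by rw [h1]))]
    by_cases h2 : y = inv x
    · rw [hS0 x y (Or.inr h2), hS0 (g • x) (g • y) (Or.inr (by rw [h2, hG]))]
    · have h3 := (hS1 x y h1 h2).1
      have h4 := (hS1 (g • x) (g • y) (fun h => h1 (smul_left_cancel g h))
        (fun h => h2 (smul_left_cancel g (by rw [h, hG])))).1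
      rw [hAinv, h3] at h4
      exact (mul_left_cancel₀ hxy₀ h4).symm
  let K : X → X → ℤ := fun x y => ∑ w, S x y * S y w * S w x
  have hKinv : ∀ (g : G) x y, K (g • x) (g • y) = K x y := by
    intro g x y
    refine (Fintype.sum_equiv (MulAction.toPerm g) (fun w => S x y * S y w * S w x)
      (fun w => S (g • x) (g • y) * S (g • y) w * S w (g • x)) fun w => ?_).symm
    change _ = S (g • x) (g • y) * S (g • y) (g • w) * S (g • w) (g • x)
    rw [hSinv, hSinv, hSinv]
  have hK1 : ∀ x y, K (inv x) y = K x y := by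
    intro x y
    simp only [K, hSneg1, hSneg2]
    exact Finset.sum_congr rfl fun w _ => by ring
  have hK2 : ∀ x y, K x (inv y) = K x y := by
    intro x y
    simp only [K, hSneg1, hSneg2]
    exact Finset.sum_congr rfl fun w _ => by ring
  have hKs : ∀ x y, K x y = K y x := by
    intro x y
    refine Finset.sum_congr rfl fun w _ => ?_
    rw [hSsymm x y, hSsymm y w, hSsymm w x]
    ring
  have hKconst : ∀ x y x' y', y ≠ x → y ≠ inv x → y' ≠ x' → y' ≠ inv x' → K x y = K x' y' := by
    intro x y x' y' h1 h2 h1' h2'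
    obtain ⟨g, ⟨h3, h4⟩ | ⟨h3, h4⟩⟩ := hpair x y x' y' h1 h2 h1' h2'
    · rw [← hKinv g x y]
      rcases h3 with h3 | h3 <;> rcases h4 with h4 | h4 <;> rw [h3, h4] <;>
        simp only [hK1, hK2]
    · rw [← hKinv g x y]
      rcases h3 with h3 | h3 <;> rcases h4 with h4 | h4 <;> rw [h3, h4] <;>
        (try simp only [hK1, hK2]) <;> exact hKs _ _
  obtain ⟨k, hk⟩ : ∃ k : ℤ, ∀ x ∈ R, ∀ y ∈ R, x ≠ y → ∑ w ∈ R, S x y * S y w * S w x = k := by
    have h1 : ∀ x y, K x y = ∑ w ∈ R, S x y * S y w * S w x + ∑ w ∈ R, S x y * S y w * S w x := by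
      intro x y
      exact hR.sum_symm hinv (fun w => S x y * S y w * S w x) (fun w => by
        simp only [hSneg1, hSneg2]; ring)
    refine ⟨K x₀ y₀ / 2, fun x hx y hy hxy => ?_⟩
    have h2 := hKconst x y x₀ y₀ (hRD x hx y hy hxy).1 (hRD x hx y hy hxy).2 hx₀ hy₀
    rw [h1] at h2
    omega
  have hSR : ∀ x ∈ R, ∀ y ∈ R, x ≠ y → S x y * S x y = 1 := by
    intro x hx y hy hxy
    rcases (hS1 x y (hRD x hx y hy hxy).1 (hRD x hx y hy hxy).2).2 with h | h <;> rw [h] <;> norm_num
  have hSR' : ∀ x ∈ R, ∀ y ∈ R, x ≠ y → S x y = 1 ∨ S x y = -1 := by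
    intro x hx y hy hxy
    exact (hS1 x y (hRD x hx y hy hxy).1 (hRD x hx y hy hxy).2).2
  have hSxx : ∀ x, S x x = 0 := fun x => hS0 x x (Or.inl rfl)
  -- the congruence modulo 4
  have hfour : ∀ x ∈ R, ∀ y ∈ R, ∀ z ∈ R, x ≠ y → x ≠ z → y ≠ z →
      (4 : ℤ) ∣ (S x y * S y z * S z x) * k - 1 - 2 * k + 2 * (S x y * S y z * S z x) +
        (n : ℤ) - 3 := by
    intro x hx y hy z hz hxy hxz hyz
    obtain ⟨τ, hτ⟩ : ∃ τ, τ = S x y * S y z * S z x := ⟨_, rfl⟩
    rw [← hτ]
    have hsplit : ∀ f : X → ℤ, ∑ w ∈ R, f w = f x + (f y + (f z +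
        ∑ w ∈ ((R.erase x).erase y).erase z, f w)) := by
      intro f
      rw [Finset.add_sum_erase _ f (Finset.mem_erase.2 ⟨hyz.symm, Finset.mem_erase.2 ⟨hxz.symm, hz⟩⟩),
        Finset.add_sum_erase _ f (Finset.mem_erase.2 ⟨hxy.symm, hy⟩), Finset.add_sum_erase _ f hx]
    have hmem : ∀ w ∈ ((R.erase x).erase y).erase z, w ∈ R ∧ w ≠ x ∧ w ≠ y ∧ w ≠ z := by
      intro w hw
      simp only [Finset.mem_erase] at hw
      tauto
    have hcardR : (((R.erase x).erase y).erase z).card = n - 3 := by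
      rw [Finset.card_erase_of_mem (Finset.mem_erase.2 ⟨hyz.symm, Finset.mem_erase.2 ⟨hxz.symm, hz⟩⟩),
        Finset.card_erase_of_mem (Finset.mem_erase.2 ⟨hxy.symm, hy⟩),
        Finset.card_erase_of_mem hx, hRn]
      omega
    have hn3 : 3 ≤ n := by
      rw [← hRn]
      have h1 : ({x, y, z} : Finset X).card = 3 := Finset.card_eq_three.2 ⟨x, y, z, hxy, hxz, hyz, rfl⟩
      rw [← h1]
      apply Finset.card_le_card
      intro w hw
      simp only [Finset.mem_insert, Finset.mem_singleton] at hw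
      rcases hw with rfl | rfl | rfl <;> assumption
    set R' := ((R.erase x).erase y).erase z with hR'
    have h1 := hk x hx y hy hxy
    have h2 := hk x hx z hz hxz
    have h3 := hk y hy z hz hyz
    rw [hsplit] at h1 h2 h3
    simp only [hSxx, mul_zero, zero_mul, zero_add] at h1 h2 h3
    have h1' : ∑ w ∈ R', S x y * S y w * S w x = k - τ := by
      rw [hτ]; linarith
    have h2' : ∑ w ∈ R', S x z * S z w * S w x = k - τ := by
      have e : S x z * S z y * S y x = τ := by
        rw [hτ, hSsymm x z, hSsymm z y, hSsymm y x]; ring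
      rw [← e]; linarith
    have h3' : ∑ w ∈ R', S y z * S z w * S w y = k - τ := by
      have e : S y z * S z x * S x y = τ := by
        rw [hτ]; ring
      rw [← e]; linarith
    have hτ2 : τ * τ = 1 := by
      rw [hτ]
      have e1 := hSR x hx y hy hxy
      have e2 := hSR y hy z hz hyz
      have e3 := hSR z hz x hx hxz.symm
      calc S x y * S y z * S z x * (S x y * S y z * S z x)
          = (S x y * S x y) * (S y z * S y z) * (S z x * S z x) := by ring
        _ = 1 := by rw [e1, e2, e3]; norm_num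
    have h4 : ∀ w ∈ R', S y z * S z w * S w y =
        τ * ((S x z * S z w * S w x) * (S x y * S y w * S w x)) := by
      intro w hw
      obtain ⟨hwR, hwx, hwy, hwz⟩ := hmem w hw
      have e1 := hSR x hx y hy hxy
      have e2 := hSR x hx z hz hxz
      have e3 := hSR w hwR x hx hwx
      rw [hτ, hSsymm z x, hSsymm y w]
      calc S y z * S z w * S w y = 1 * 1 * 1 * (S y z * S z w * S w y) := by ring
        _ = (S x y * S x y) * (S x z * S x z) * (S w x * S w x) * (S y z * S z w * S w y) := by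
            rw [e1, e2, e3]
        _ = _ := by ring
    rw [Finset.sum_congr rfl h4, ← Finset.mul_sum] at h3'
    have h5 : ∀ w ∈ R', (4 : ℤ) ∣ (S x z * S z w * S w x) * (S x y * S y w * S w x) -
        (S x z * S z w * S w x) - (S x y * S y w * S w x) + 1 := by
      intro w hw
      obtain ⟨hwR, hwx, hwy, hwz⟩ := hmem w hw
      have e1 := hSR' x hx y hy hxy
      have e2 := hSR' x hx z hz hxz
      have e3 := hSR' w hwR x hx hwx
      have e4 := hSR' z hz w hwR hwz.symm
      have e5 := hSR' y hy w hwR hwy.symm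
      rcases e1 with e1 | e1 <;> rcases e2 with e2 | e2 <;> rcases e3 with e3 | e3 <;>
        rcases e4 with e4 | e4 <;> rcases e5 with e5 | e5 <;> rw [e1, e2, e3, e4, e5] <;>
        norm_num
    have h6 := Finset.dvd_sum h5
    rw [Finset.sum_add_distrib, Finset.sum_sub_distrib, Finset.sum_sub_distrib, h1', h2',
      Finset.sum_const, hcardR, nsmul_eq_mul, mul_one, Nat.cast_sub hn3] at h6
    have h7 : ∑ w ∈ R', (S x z * S z w * S w x) * (S x y * S y w * S w x) = τ * (k - τ) := by
      rw [← h3', ← mul_assoc, hτ2, one_mul]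
    rw [h7] at h6
    have h8 : τ * (k - τ) - (k - τ) - (k - τ) + ((n : ℤ) - ((3 : ℕ) : ℤ)) =
        τ * k - 1 - 2 * k + 2 * τ + n - 3 := by
      push_cast
      linear_combination -hτ2
    rwa [h8] at h6
  have hτval : ∀ x ∈ R, ∀ y ∈ R, ∀ z ∈ R, x ≠ y → x ≠ z → y ≠ z →
      S x y * S y z * S z x = 1 ∨ S x y * S y z * S z x = -1 := by
    intro x hx y hy z hz hxy hxz hyz
    rcases hSR' x hx y hy hxy with e1 | e1 <;> rcases hSR' y hy z hz hyz with e2 | e2 <;>
      rcases hSR' z hz x hx hxz.symm with e3 | e3 <;> rw [e1, e2, e3] <;> norm_num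
  obtain ⟨τ₀, hτ₀, hτ⟩ : ∃ τ₀ : ℤ, (τ₀ = 1 ∨ τ₀ = -1) ∧ ∀ x ∈ R, ∀ y ∈ R, ∀ z ∈ R, x ≠ y → x ≠ z →
      y ≠ z → S x y * S y z * S z x = τ₀ := by
    rcases hn with hn | hn | hn
    · by_cases hall : ∀ x ∈ R, ∀ y ∈ R, ∀ z ∈ R, x ≠ y → x ≠ z → y ≠ z →
          S x y * S y z * S z x = 1
      · exact ⟨1, Or.inl rfl, hall⟩
      · push Not at hall
        obtain ⟨x₁, hx₁, y₁, hy₁, z₁, hz₁, hxy₁, hxz₁, hyz₁, h1⟩ := hall
        have h2 : S x₁ y₁ * S y₁ z₁ * S z₁ x₁ = -1 :=
          (hτval x₁ hx₁ y₁ hy₁ z₁ hz₁ hxy₁ hxz₁ hyz₁).resolve_left h1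
        have h3 := hfour x₁ hx₁ y₁ hy₁ z₁ hz₁ hxy₁ hxz₁ hyz₁
        rw [h2] at h3
        refine ⟨-1, Or.inr rfl, fun x hx y hy z hz hxy hxz hyz => ?_⟩
        rcases hτval x hx y hy z hz hxy hxz hyz with h4 | h4
        · exfalso
          have h5 := hfour x hx y hy z hz hxy hxz hyz
          rw [h4] at h5
          obtain ⟨b, hb⟩ := hn
          omega
        · exact h4
    · -- `n - 1` is a prime number
      obtain ⟨z, hz, hcz⟩ : ∃ z ∈ R, c z ≠ 0 := by
        by_cases h : xc ∈ R
        · exact ⟨xc, h, hxc⟩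
        · refine ⟨inv xc, ?_, ?_⟩
          · by_contra h'
            exact h ((hR xc).2 h')
          · rw [hc]
            exact neg_ne_zero.2 hxc
      have hs : ∀ y ∈ R, a * ∑ x ∈ R, S x y * c x = -(N * c y) := by
        intro y hy
        have h1 := hAR y
        rw [← Finset.add_sum_erase _ _ hy, hAxx] at h1
        rw [← Finset.add_sum_erase _ (fun x => S x y * c x) hy, hSxx, zero_mul, zero_add,
          Finset.mul_sum]
        have h2 : ∑ x ∈ R.erase y, c x * A x y = ∑ x ∈ R.erase y, a * (S x y * c x) := by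
          refine Finset.sum_congr rfl fun x hx => ?_
          obtain ⟨hxy, hx⟩ := Finset.mem_erase.1 hx
          rw [(hS1 x y (hRD x hx y hy hxy).1 (hRD x hx y hy hxy).2).1]
          ring
        rw [← h2]
        linarith
      have hSS : ∀ x ∈ R, x ≠ z → ∑ y ∈ R, S x y * S y z = k * S x z := by
        intro x hx hxz
        have h1 := hk x hx z hz hxz
        have h2 : ∑ w ∈ R, S x z * S z w * S w x = S x z * ∑ y ∈ R, S x y * S y z := by
          rw [Finset.mul_sum]
          refine Finset.sum_congr rfl fun w _ => ?_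
          rw [hSsymm z w, hSsymm w x]
          ring
        rw [h2] at h1
        have h3 := hSR x hx z hz hxz
        rw [← h1]
        calc ∑ y ∈ R, S x y * S y z = (S x z * S x z) * ∑ y ∈ R, S x y * S y z := by
              rw [h3, one_mul]
          _ = _ := by ring
      have hSSz : ∑ y ∈ R, S z y * S y z = (n : ℤ) - 1 := by
        rw [← Finset.add_sum_erase _ _ hz, hSxx, zero_mul, zero_add]
        have h1 : ∀ y ∈ R.erase z, S z y * S y z = 1 := by
          intro y hy
          obtain ⟨hyz, hy⟩ := Finset.mem_erase.1 hy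
          rw [hSsymm y z]
          exact hSR z hz y hy hyz.symm
        rw [Finset.sum_congr rfl h1, Finset.sum_const, Finset.card_erase_of_mem hz, hRn,
          nsmul_eq_mul, mul_one, Nat.cast_sub hn1, Nat.cast_one]
      have hquad : N ^ 2 = ((n : ℤ) - 1) * a ^ 2 + (-k) * N * a := by
        apply mul_right_cancel₀ hcz
        have h1 : a * (a * ∑ y ∈ R, S y z * ∑ x ∈ R, S x y * c x) = N * (N * c z) := by
          have h2 : a * ∑ y ∈ R, S y z * ∑ x ∈ R, S x y * c x = -N * ∑ y ∈ R, S y z * c y := by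
            rw [Finset.mul_sum, Finset.mul_sum]
            refine Finset.sum_congr rfl fun y hy => ?_
            have h3 := hs y hy
            linear_combination (S y z) * h3
          rw [h2]
          have h3 := hs z hz
          linear_combination (-N) * h3
        have h2 : ∑ y ∈ R, S y z * ∑ x ∈ R, S x y * c x =
            ((n : ℤ) - 1) * c z + k * ∑ x ∈ R, S x z * c x := by
          have h3 : ∑ y ∈ R, S y z * ∑ x ∈ R, S x y * c x =
              ∑ x ∈ R, c x * ∑ y ∈ R, S x y * S y z := by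
            simp only [Finset.mul_sum]
            rw [Finset.sum_comm]
            refine Finset.sum_congr rfl fun x _ => Finset.sum_congr rfl fun y _ => by ring
          rw [h3, ← Finset.add_sum_erase _ _ hz, hSSz,
            ← Finset.add_sum_erase _ (fun x => S x z * c x) hz, hSxx, zero_mul, zero_add,
            Finset.mul_sum, mul_comm]
          congr 1
          refine Finset.sum_congr rfl fun x hx => ?_
          obtain ⟨hxz, hx⟩ := Finset.mem_erase.1 hx
          rw [hSS x hx hxz]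
          ring
        rw [h2] at h1
        have h3 := hs z hz
        linear_combination (-1 : ℤ) * h1 + (k * a) * h3
      obtain ⟨s, hs'⟩ := dvd_of_quadratic N a ((n : ℤ) - 1) (-k) hxy₀ hquad
      have hsk : s * (s + k) = (n : ℤ) - 1 := by
        rw [hs'] at hquad
        have h1 : a ^ 2 * (s * (s + k)) = a ^ 2 * ((n : ℤ) - 1) := by linear_combination hquad
        exact mul_left_cancel₀ (pow_ne_zero 2 hxy₀) h1
      have hkval : k = (n : ℤ) - 2 ∨ k = -((n : ℤ) - 2) := by
        have h1 : s.natAbs ∣ n - 1 := by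
          have h2 : s ∣ ((n - 1 : ℕ) : ℤ) := by
            rw [Nat.cast_sub hn1, Nat.cast_one]
            exact Dvd.intro _ hsk
          exact Int.natCast_dvd_natCast.1 (Int.natAbs_dvd.2 h2)
        rcases (Nat.dvd_prime hn).1 h1 with h2 | h2
        · rcases Int.natAbs_eq s with h3 | h3 <;> rw [h2] at h3 <;> rw [h3] at hsk
          · left; push_cast at hsk; linarith
          · right; push_cast at hsk; linarith
        · have hnp := hn.pos
          have h4 : ((n - 1 : ℕ) : ℤ) = (n : ℤ) - 1 := by rw [Nat.cast_sub hn1, Nat.cast_one]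
          have h5 : ((n : ℤ) - 1) ≠ 0 := by
            rw [← h4]
            exact_mod_cast hnp.ne'
          rcases Int.natAbs_eq s with h3 | h3 <;> rw [h2, h4] at h3 <;> rw [h3] at hsk
          · right
            have h6 : ((n : ℤ) - 1 + k) = 1 := by
              apply mul_left_cancel₀ h5
              rw [hsk, mul_one]
            linarith
          · left
            have h6 : (-((n : ℤ) - 1) + k) = -1 := by
              apply mul_left_cancel₀ h5
              linear_combination (-1 : ℤ) * hsk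
            linarith
      have hsum2 : ∀ ε : ℤ, (ε = 1 ∨ ε = -1) → k = ε * ((n : ℤ) - 2) →
          ∀ x ∈ R, ∀ y ∈ R, ∀ z ∈ R, x ≠ y → x ≠ z → y ≠ z → S x y * S y z * S z x = ε := by
        intro ε hε hkε x hx y hy z hz hxy hxz hyz
        have h1 := hk x hx y hy hxy
        have hcardR : ((R.erase x).erase y).card = n - 2 := by
          rw [Finset.card_erase_of_mem (Finset.mem_erase.2 ⟨hxy.symm, hy⟩),
            Finset.card_erase_of_mem hx, hRn]
          omega
        have hn2 : 2 ≤ n := by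
          rw [← hRn]
          have h2 : ({x, y} : Finset X).card = 2 := Finset.card_pair hxy
          rw [← h2]
          apply Finset.card_le_card
          intro w hw
          simp only [Finset.mem_insert, Finset.mem_singleton] at hw
          rcases hw with rfl | rfl <;> assumption
        rw [← Finset.add_sum_erase _ _ hx, ← Finset.add_sum_erase _ _
          (Finset.mem_erase.2 ⟨hxy.symm, hy⟩)] at h1
        simp only [hSxx, mul_zero, zero_mul, zero_add] at h1
        have h2 : ∑ w ∈ (R.erase x).erase y, (1 - ε * (S x y * S y w * S w x)) = 0 := by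
          rw [Finset.sum_sub_distrib, Finset.sum_const, hcardR, ← Finset.mul_sum, h1, hkε,
            nsmul_eq_mul, mul_one, Nat.cast_sub hn2]
          rcases hε with h | h <;> rw [h] <;> push_cast <;> ring
        have h3 := (Finset.sum_eq_zero_iff_of_nonneg (fun w hw => by
          obtain ⟨hwy, hw⟩ := Finset.mem_erase.1 hw
          obtain ⟨hwx, hw⟩ := Finset.mem_erase.1 hw
          rcases hτval x hx y hy w hw hxy hwx.symm hwy.symm with h4 | h4 <;> rw [h4] <;>
            rcases hε with h | h <;> rw [h] <;> norm_num)).1 h2 z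
          (Finset.mem_erase.2 ⟨hyz.symm, Finset.mem_erase.2 ⟨hxz.symm, hz⟩⟩)
        rcases hτval x hx y hy z hz hxy hxz hyz with h4 | h4 <;> rw [h4] at h3 ⊢ <;>
          rcases hε with h | h <;> rw [h] at h3 ⊢ <;> norm_num at h3
      rcases hkval with h | h
      · exact ⟨1, Or.inl rfl, hsum2 1 (Or.inl rfl) (by rw [h, one_mul])⟩
      · exact ⟨-1, Or.inr rfl, hsum2 (-1) (Or.inr rfl) (by rw [h]; ring)⟩
    · -- transitivity on triples
      by_cases hex : ∃ x₁ ∈ R, ∃ y₁ ∈ R, ∃ z₁ ∈ R, x₁ ≠ y₁ ∧ x₁ ≠ z₁ ∧ y₁ ≠ z₁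
      · obtain ⟨x₁, hx₁, y₁, hy₁, z₁, hz₁, hxy₁, hxz₁, hyz₁⟩ := hex
        refine ⟨S x₁ y₁ * S y₁ z₁ * S z₁ x₁, hτval x₁ hx₁ y₁ hy₁ z₁ hz₁ hxy₁ hxz₁ hyz₁,
          fun x hx y hy z hz hxy hxz hyz => ?_⟩
        have hvec : ∀ x ∈ R, ∀ y ∈ R, ∀ z ∈ R, x ≠ y → x ≠ z → y ≠ z →
            ∀ i k : Fin 3, i ≠ k → (![x, y, z] : Fin 3 → X) i ≠ (![x, y, z] : Fin 3 → X) k ∧
              (![x, y, z] : Fin 3 → X) i ≠ inv ((![x, y, z] : Fin 3 → X) k) := by
          intro x hx y hy z hz hxy hxz hyz i k hik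
          fin_cases i <;> fin_cases k <;> first
            | exact absurd rfl hik
            | exact hRD y hy x hx hxy.symm
            | exact hRD z hz x hx hxz.symm
            | exact hRD x hx y hy hxy
            | exact hRD z hz y hy hyz.symm
            | exact hRD x hx z hz hxz
            | exact hRD y hy z hz hyz
        obtain ⟨g, π, hgπ⟩ := hn ![x, y, z] ![x₁, y₁, z₁] (hvec x hx y hy z hz hxy hxz hyz)
          (hvec x₁ hx₁ y₁ hy₁ z₁ hz₁ hxy₁ hxz₁ hyz₁)
        have h0 := hgπ 0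
        have h1 := hgπ 1
        have h2 := hgπ 2
        have hperm : ∀ π : Equiv.Perm (Fin 3),
            (π 0 = 0 ∧ π 1 = 1 ∧ π 2 = 2) ∨ (π 0 = 0 ∧ π 1 = 2 ∧ π 2 = 1) ∨
            (π 0 = 1 ∧ π 1 = 0 ∧ π 2 = 2) ∨ (π 0 = 1 ∧ π 1 = 2 ∧ π 2 = 0) ∨
            (π 0 = 2 ∧ π 1 = 0 ∧ π 2 = 1) ∨ (π 0 = 2 ∧ π 1 = 1 ∧ π 2 = 0) := by
          decide
        have hinvt : S x y * S y z * S z x =
            S (![x₁, y₁, z₁] (π 0)) (![x₁, y₁, z₁] (π 1)) *
              S (![x₁, y₁, z₁] (π 1)) (![x₁, y₁, z₁] (π 2)) *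
              S (![x₁, y₁, z₁] (π 2)) (![x₁, y₁, z₁] (π 0)) := by
          rw [← hSinv g x y, ← hSinv g y z, ← hSinv g z x]
          change (g • x = _ ∨ g • x = _) at h0
          change (g • y = _ ∨ g • y = _) at h1
          change (g • z = _ ∨ g • z = _) at h2
          rcases h0 with h0 | h0 <;> rcases h1 with h1 | h1 <;> rcases h2 with h2 | h2 <;>
            rw [h0, h1, h2] <;> (try simp only [hSneg1, hSneg2]) <;> ring
        rw [hinvt]
        rcases hperm π with ⟨e0, e1, e2⟩ | ⟨e0, e1, e2⟩ | ⟨e0, e1, e2⟩ | ⟨e0, e1, e2⟩ |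
            ⟨e0, e1, e2⟩ | ⟨e0, e1, e2⟩ <;> rw [e0, e1, e2]
        · rfl
        · change S x₁ z₁ * S z₁ y₁ * S y₁ x₁ = S x₁ y₁ * S y₁ z₁ * S z₁ x₁
          rw [hSsymm x₁ z₁, hSsymm z₁ y₁, hSsymm y₁ x₁]; ring
        · change S y₁ x₁ * S x₁ z₁ * S z₁ y₁ = S x₁ y₁ * S y₁ z₁ * S z₁ x₁
          rw [hSsymm x₁ z₁, hSsymm z₁ y₁, hSsymm y₁ x₁]; ring
        · change S y₁ z₁ * S z₁ x₁ * S x₁ y₁ = S x₁ y₁ * S y₁ z₁ * S z₁ x₁
          ring
        · change S z₁ x₁ * S x₁ y₁ * S y₁ z₁ = S x₁ y₁ * S y₁ z₁ * S z₁ x₁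
          ring
        · change S z₁ y₁ * S y₁ x₁ * S x₁ z₁ = S x₁ y₁ * S y₁ z₁ * S z₁ x₁
          rw [hSsymm x₁ z₁, hSsymm z₁ y₁, hSsymm y₁ x₁]; ring
      · push Not at hex
        exact ⟨1, Or.inl rfl, fun x hx y hy z hz hxy hxz hyz =>
          absurd (hex x hx y hy z hz hxy hxz) hyz⟩
  have hRne : R.Nonempty := by
    rw [← Finset.card_pos, hRn]
    exact hn1
  obtain ⟨r₀, hr₀⟩ := hRne
  have hτ₀2 : τ₀ * τ₀ = 1 := by
    rcases hτ₀ with h | h <;> rw [h] <;> norm_num
  let v : X → ℤ := fun x => if x = r₀ then τ₀ else if x = inv r₀ then -τ₀ else S r₀ x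
  have hv0 : v r₀ = τ₀ := if_pos rfl
  have hv0' : v (inv r₀) = -τ₀ := (if_neg (hne r₀)).trans (if_pos rfl)
  have hv1 : ∀ x, x ≠ r₀ → x ≠ inv r₀ → v x = S r₀ x := by
    intro x h1 h2
    exact (if_neg h1).trans (if_neg h2)
  have hvpm : ∀ x, v x = 1 ∨ v x = -1 := by
    intro x
    by_cases h1 : x = r₀
    · rw [h1, hv0]; exact hτ₀
    by_cases h2 : x = inv r₀
    · rw [h2, hv0']
      rcases hτ₀ with h | h <;> rw [h] <;> norm_num
    · rw [hv1 x h1 h2]
      exact (hS1 r₀ x h1 h2).2
  have hvneg : ∀ x, v (inv x) = -v x := by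
    intro x
    by_cases h1 : x = r₀
    · rw [h1, hv0, hv0']
    by_cases h2 : x = inv r₀
    · rw [h2, hinv, hv0, hv0', neg_neg]
    · rw [hv1 x h1 h2, hv1 (inv x) (fun h => h2 (by rw [← h, hinv]))
        (fun h => h1 (by rw [← hinv x, h, hinv])), hSneg2]
  have hv2' : ∀ x, v x * v x = 1 := by
    intro x
    rcases hvpm x with h | h <;> rw [h] <;> norm_num
  have hv2 : ∀ x ∈ R, v x * v x = 1 := fun x _ => hv2' x
  have hSv : ∀ x ∈ R, ∀ y ∈ R, x ≠ y → S x y = τ₀ * (v x * v y) := by
    intro x hx y hy hxy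
    by_cases h1 : x = r₀
    · rw [h1, hv0, hv1 y (fun h => hxy (h1.trans h.symm)) (hRD r₀ hr₀ y hy (fun h => hxy (h1.trans h))).2]
      linear_combination (-S r₀ y) * hτ₀2
    · have hx' := (hRD r₀ hr₀ x hx (fun h => h1 h.symm)).2
      by_cases h2 : y = r₀
      · rw [h2, hv0, hv1 x h1 hx', hSsymm x r₀]
        linear_combination (-S r₀ x) * hτ₀2
      · have hy' := (hRD r₀ hr₀ y hy (fun h => h2 h.symm)).2
        rw [hv1 x h1 hx', hv1 y h2 hy']
        have h3 := hτ r₀ hr₀ x hx y hy (fun h => h1 h.symm) (fun h => h2 h.symm) hxy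
        have e1 := hSR r₀ hr₀ x hx (fun h => h1 h.symm)
        have e2 := hSR r₀ hr₀ y hy (fun h => h2 h.symm)
        rw [hSsymm y r₀] at h3
        calc S x y = (S r₀ x * S r₀ x) * (S r₀ y * S r₀ y) * S x y := by rw [e1, e2]; ring
          _ = (S r₀ x * S x y * S r₀ y) * (S r₀ x * S r₀ y) := by ring
          _ = _ := by rw [h3]
  have hrep : ∀ x, ∃ x' ∈ R, (x = x' ∨ x = inv x') := by
    intro x
    by_cases hx : x ∈ R
    · exact ⟨x, hx, Or.inl rfl⟩
    · refine ⟨inv x, ?_, Or.inr (hinv x).symm⟩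
      by_contra h
      exact hx ((hR x).2 h)
  have hSvX : ∀ x y, y ≠ x → y ≠ inv x → S x y = τ₀ * (v x * v y) := by
    intro x y h1 h2
    obtain ⟨x', hx', hxx⟩ := hrep x
    obtain ⟨y', hy', hyy⟩ := hrep y
    have hne' : x' ≠ y' := by
      rintro rfl
      rcases hxx with rfl | rfl <;> rcases hyy with rfl | rfl
      · exact h1 rfl
      · exact h2 rfl
      · exact h2 (by rw [hinv])
      · exact h1 rfl
    have h3 := hSv x' hx' y' hy' hne'
    rcases hxx with rfl | rfl <;> rcases hyy with rfl | rfl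
    · exact h3
    · rw [hSneg2, hvneg, h3]; ring
    · rw [hSneg1, hvneg, h3]; ring
    · rw [hSneg1, hSneg2, hvneg, hvneg, h3]; ring
  have hvsemi : ∀ (g : G) (x y : X), v (g • x) * v (g • y) = v x * v y := by
    intro g x y
    by_cases h1 : y = x
    · rw [h1, hv2', hv2']
    by_cases h2 : y = inv x
    · rw [h2, hG, hvneg, hvneg, mul_neg, mul_neg, hv2', hv2']
    · have h3 := hSvX x y h1 h2
      have h4 := hSvX (g • x) (g • y) (fun h => h1 (smul_left_cancel g h))
        (fun h => h2 (smul_left_cancel g (by rw [h, hG])))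
      rw [hSinv, h3] at h4
      have h5 : τ₀ ≠ 0 := by
        rcases hτ₀ with h | h <;> rw [h] <;> norm_num
      exact (mul_left_cancel₀ h5 h4).symm
  obtain ⟨g₁, hg₁⟩ : ∃ g : G, ∑ x, u (g • x) * v x ≠ 0 := by
    by_contra hall
    push Not at hall
    exact hweil ⟨v, hvpm, hvneg, hvsemi, hall⟩
  obtain ⟨α, hα⟩ : ∃ α, α = a * τ₀ := ⟨_, rfl⟩
  have hAv : ∀ x ∈ R, ∀ y ∈ R, x ≠ y → A x y = α * (v x * v y) := by
    intro x hx y hy hxy
    rw [(hS1 x y (hRD x hx y hy hxy).1 (hRD x hx y hy hxy).2).1, hSv x hx y hy hxy, hα]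
    ring
  obtain ⟨P, hP⟩ : ∃ P, P = ∑ x ∈ R, c x * v x := ⟨_, rfl⟩
  have hy1 : ∀ y ∈ R, c y * (N - α) + α * v y * P = 0 := by
    intro y hy
    have h1 := hAR y
    rw [← Finset.add_sum_erase _ _ hy, hAxx] at h1
    have h2 : ∑ x ∈ R.erase y, c x * A x y = α * v y * ∑ x ∈ R.erase y, c x * v x := by
      rw [Finset.mul_sum]
      refine Finset.sum_congr rfl fun x hx => ?_
      obtain ⟨hxy, hx⟩ := Finset.mem_erase.1 hx
      rw [hAv x hx y hy hxy]
      ring
    rw [h2] at h1
    have h3 : P = c y * v y + ∑ x ∈ R.erase y, c x * v x := by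
      rw [hP, Finset.add_sum_erase _ (fun x => c x * v x) hy]
    rw [h3]
    linear_combination h1 + (α * c y) * hv2 y hy
  have hPN : P * (N + ((n : ℤ) - 1) * α) = 0 := by
    have h1 : ∑ y ∈ R, v y * (c y * (N - α) + α * v y * P) = 0 :=
      Finset.sum_eq_zero fun y hy => by rw [hy1 y hy, mul_zero]
    have h2 : ∑ y ∈ R, v y * (c y * (N - α) + α * v y * P) =
        (N - α) * ∑ y ∈ R, c y * v y + α * P * ∑ y ∈ R, v y * v y := by
      rw [Finset.mul_sum, Finset.mul_sum, ← Finset.sum_add_distrib]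
      exact Finset.sum_congr rfl fun y _ => by ring
    rw [h2, ← hP, Finset.sum_congr rfl hv2, Finset.sum_const, hRn, nsmul_eq_mul, mul_one] at h1
    linear_combination h1
  have hpos : N + ((n : ℤ) - 1) * α ≠ 0 := by
    intro h0
    have h1 : ∑ g : G, (∑ x ∈ R, u (g • x) * v x) ^ 2 = n * (N + ((n : ℤ) - 1) * α) := by
      have h2 : ∀ g : G, (∑ x ∈ R, u (g • x) * v x) ^ 2 =
          ∑ x ∈ R, ∑ y ∈ R, (v x * v y) * (u (g • x) * u (g • y)) := by
        intro g
        rw [sq, Finset.sum_mul_sum]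
        exact Finset.sum_congr rfl fun x _ => Finset.sum_congr rfl fun y _ => by ring
      rw [Finset.sum_congr rfl (fun g _ => h2 g), Finset.sum_comm]
      have h3 : ∀ x ∈ R, ∑ g : G, ∑ y ∈ R, (v x * v y) * (u (g • x) * u (g • y)) =
          N + ((n : ℤ) - 1) * α := by
        intro x hx
        rw [Finset.sum_comm, ← Finset.add_sum_erase _ _ hx]
        have h4 : ∑ g : G, (v x * v x) * (u (g • x) * u (g • x)) = N := by
          rw [← Finset.mul_sum, hv2 x hx, one_mul]
          exact hAxx x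
        have h5 : ∀ y ∈ R.erase x, ∑ g : G, (v x * v y) * (u (g • x) * u (g • y)) = α := by
          intro y hy
          obtain ⟨hyx, hy⟩ := Finset.mem_erase.1 hy
          rw [← Finset.mul_sum]
          change (v x * v y) * A x y = α
          rw [hAv x hx y hy hyx.symm]
          have e1 := hv2 x hx
          have e2 := hv2 y hy
          linear_combination (α * v y * v y) * e1 + α * e2
        rw [h4, Finset.sum_congr rfl h5, Finset.sum_const, Finset.card_erase_of_mem hx, hRn,
          nsmul_eq_mul, Nat.cast_sub hn1, Nat.cast_one]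
      rw [Finset.sum_congr rfl h3, Finset.sum_const, hRn, nsmul_eq_mul]
    rw [h0, mul_zero] at h1
    have h2 : 0 < ∑ g : G, (∑ x ∈ R, u (g • x) * v x) ^ 2 := by
      refine Finset.sum_pos' (fun g _ => sq_nonneg _) ⟨g₁, Finset.mem_univ _, ?_⟩
      have h3 : (∑ x ∈ R, u (g₁ • x) * v x) ≠ 0 := by
        intro h4
        apply hg₁
        rw [hR.sum_symm hinv (fun x => u (g₁ • x) * v x) (fun x => by
          simp only [hG, hua, hvneg]; ring), h4, add_zero]
      positivity
    omega
  have hP0 : P = 0 := (mul_eq_zero.1 hPN).resolve_right hpos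
  have hNα : N - α ≠ 0 := by
    intro h0
    have hα' : α = N := by omega
    have h1 : ∀ x ∈ R, ∀ y ∈ R, ∀ g : G, u (g • x) * u (g • y) = u x * u y := by
      intro x hx y hy
      by_cases hxy : x = y
      · intro g
        rw [hxy, hu2, hu2]
      have h2 : ∀ g : G, u (g • x) * u (g • y) = v x * v y := by
        have h3 : ∑ g : G, (1 - (v x * v y) * (u (g • x) * u (g • y))) = 0 := by
          rw [Finset.sum_sub_distrib, ← Finset.mul_sum, Finset.sum_const, Finset.card_univ,
            nsmul_eq_mul, mul_one]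
          change N - (v x * v y) * A x y = 0
          rw [hAv x hx y hy hxy, hα']
          have e1 := hv2 x hx
          have e2 := hv2 y hy
          linear_combination (-N * v y * v y) * e1 - N * e2
        have h4 := (Finset.sum_eq_zero_iff_of_nonneg (fun g _ => ?_)).1 h3
        · intro g
          have h5 := h4 g (Finset.mem_univ g)
          rcases hvpm x with e1 | e1 <;> rcases hvpm y with e2 | e2 <;> rw [e1, e2] at h5 ⊢ <;>
            linarith
        · rcases hvpm x with e1 | e1 <;> rcases hvpm y with e2 | e2 <;>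
            rcases hu (g • x) with e3 | e3 <;> rcases hu (g • y) with e4 | e4 <;>
            rw [e1, e2, e3, e4] <;> norm_num
      intro g
      have h3 := h2 1
      rw [one_smul, one_smul] at h3
      rw [h2 g, h3]
    obtain ⟨g, x, y, hgxy⟩ := hprim
    apply hgxy
    obtain ⟨x', hx', hxx⟩ := hrep x
    obtain ⟨y', hy', hyy⟩ := hrep y
    have h2 := h1 x' hx' y' hy' g
    rcases hxx with rfl | rfl <;> rcases hyy with rfl | rfl
    · exact h2
    · simp only [hG, hua, mul_neg, h2]
    · simp only [hG, hua, neg_mul, h2]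
    · simp only [hG, hua, neg_mul, mul_neg, neg_neg, h2]
  intro y hy
  have h1 := hy1 y hy
  rw [hP0, mul_zero, add_zero] at h1
  exact (mul_eq_zero.1 h1).resolve_right hNα

end Pool.Agent.H194R3.CM
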