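import Mathlib
import Pool.Agent.H194R3.CM.Block
import Pool.Agent.H194R3.CM.PairCore

/-!
# Families of CM fields with pair-transitive real subfields
-/

set_option linter.unusedSectionVars false
set_option linter.unusedVariables false

namespace Pool.Agent.H194R3.CM

open NumberField Module Equiv Pool.Agent.H204R3.CM Pool.Agent.H925R2

section

variable {ι : Type*} [Fintype ι] {E : ι → Type*} [∀ i, Field (E i)] [∀ i, NumberField (E i)]
  [∀ i, IsCMField (E i)] {L : Type*} [Field L] [NumberField L] [IsGalois ℚ L]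
  {Φ : ∀ i, Set (E i →+* ℂ)} (hΦ : ∀ i, IsCMType (Φ i)) (j : L →+* ℂ)

include j in
/-- The condition on triples for the Galois group. -/
theorem triple_transfer {F : Type*} [Field F] [NumberField F] [IsCMField F]
    (hF : TripleTransitive (maximalRealSubfield F)) (x y : Fin 3 → (F →+* L))
    (hx : ∀ i k, i ≠ k → x i ≠ x k ∧ x i ≠ cbar (x k))
    (hy : ∀ i k, i ≠ k → y i ≠ y k ∧ y i ≠ cbar (y k)) :
    ∃ (g : L ≃ₐ[ℚ] L) (π : Equiv.Perm (Fin 3)), ∀ i, g • x i = y (π i) ∨
      g • x i = cbar (y (π i)) := by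
  let r : (F →+* L) → (maximalRealSubfield F →+* ℂ) := fun x =>
    (j.comp x).comp (maximalRealSubfield F).subtype
  have hinj : ∀ z : Fin 3 → (F →+* L), (∀ i k, i ≠ k → z i ≠ z k ∧ z i ≠ cbar (z k)) →
      Function.Injective (fun i => r (z i)) := by
    intro z hz i k h
    by_contra hik
    rcases res_eq j (z i) (z k) h with h' | h'
    · exact (hz i k hik).1 h'
    · exact (hz i k hik).2 h'
  obtain ⟨τ, π, hτ⟩ := hF (fun i => r (x i)) (fun i => r (y i)) (hinj x hx) (hinj y hy)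
  obtain ⟨σ, hσ⟩ := exists_restrict j τ
  have hr : ∀ z : F →+* L, r (σ • z) = τ.comp (r z) := by
    intro z
    ext a
    exact hσ (z a)
  exact ⟨σ, π, fun i => res_eq j _ _ ((hr (x i)).trans (hτ i))⟩

/-- A sign vector on the embeddings, orthogonal to the CM type, gives the Weil type. -/
theorem weilType_of {F : Type*} [Field F] [NumberField F] [IsCMField F] (Φ : Set (F →+* ℂ))
    (hemb : ∀ ψ : F →+* ℂ, ∃ φ : F →+* L, j.comp φ = ψ)
    (v : (F →+* L) → ℤ) (hv : ∀ x, v x = 1 ∨ v x = -1) (hvn : ∀ x, v (cbar x) = -v x)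
    (hvs : ∀ (g : L ≃ₐ[ℚ] L) x y, v (g • x) * v (g • y) = v x * v y)
    (hsum : {x : F →+* L | j.comp x ∈ Φ ∧ v x = 1}.ncard =
      {x : F →+* L | j.comp x ∈ Φ ∧ v x = -1}.ncard) : WeilType Φ := by
  let Ψ : Set (F →+* ℂ) := {ψ | ∃ φ : F →+* L, j.comp φ = ψ ∧ v φ = 1}
  have hmem : ∀ φ : F →+* L, j.comp φ ∈ Ψ ↔ v φ = 1 := by
    intro φ
    constructor
    · rintro ⟨φ', h1, h2⟩
      rw [← comp_injective j h1]
      exact h2
    · intro h
      exact ⟨φ, rfl, h⟩
  refine ⟨Ψ, ?_, ?_, ?_⟩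
  · intro ψ
    obtain ⟨φ, rfl⟩ := hemb ψ
    rw [hmem, ← comp_cbar, hmem, hvn]
    rcases hv φ with h | h <;> rw [h] <;> norm_num
  · intro τ
    obtain ⟨σ, hσ⟩ := exists_restrict j τ
    by_cases hall : ∀ φ, v (σ • φ) = v φ
    · left
      intro ψ
      obtain ⟨φ, rfl⟩ := hemb ψ
      rw [← comp_smul_of_restrict j τ σ hσ φ, hmem, hmem, hall]
    · right
      push Not at hall
      obtain ⟨φ₀, h0⟩ := hall
      intro ψ
      obtain ⟨φ, rfl⟩ := hemb ψ
      rw [← comp_smul_of_restrict j τ σ hσ φ, hmem, hmem]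
      have h1 := hvs σ φ φ₀
      rcases hv φ with e1 | e1 <;> rcases hv φ₀ with e2 | e2 <;> rcases hv (σ • φ) with e3 | e3 <;>
        rcases hv (σ • φ₀) with e4 | e4 <;> simp [e1, e2, e3, e4] at h1 h0 ⊢
  · have h1 : Φ ∩ Ψ = (fun x : F →+* L => j.comp x) '' {x : F →+* L | j.comp x ∈ Φ ∧ v x = 1} := by
      ext ψ
      constructor
      · rintro ⟨h1, φ, rfl, h2⟩
        exact ⟨φ, ⟨h1, h2⟩, rfl⟩
      · rintro ⟨φ, ⟨h1, h2⟩, rfl⟩
        exact ⟨h1, φ, rfl, h2⟩
    have h2 : Φ \ Ψ = (fun x : F →+* L => j.comp x) '' {x : F →+* L | j.comp x ∈ Φ ∧ v x = -1} := by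
      ext ψ
      constructor
      · rintro ⟨h1, h2⟩
        obtain ⟨φ, rfl⟩ := hemb ψ
        refine ⟨φ, ⟨h1, ?_⟩, rfl⟩
        rcases hv φ with h | h
        · exact absurd ((hmem φ).2 h) h2
        · exact h
      · rintro ⟨φ, ⟨h1, h2⟩, rfl⟩
        refine ⟨h1, fun h3 => ?_⟩
        have h4 := (hmem φ).1 h3
        omega
    have hinj : Function.Injective (fun x : F →+* L => j.comp x) := fun a b h => comp_injective j h
    rw [h1, h2, Set.ncard_image_of_injective _ hinj, Set.ncard_image_of_injective _ hinj, hsum]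

include hΦ in
/-- **Stability of the pair-transitive families.** -/
theorem stable_of_pair (hemb : ∀ i, ∀ ψ : E i →+* ℂ, ∃ φ : E i →+* L, j.comp φ = ψ)
    (hdeg : ∀ i, Odd (finrank ℚ (maximalRealSubfield (E i))) ∨
      (((finrank ℚ (maximalRealSubfield (E i)) - 1).Prime ∨
        TripleTransitive (maximalRealSubfield (E i))) ∧ ¬ WeilType (Φ i)))
    (hpair : ∀ i, PairTransitive (maximalRealSubfield (E i)))
    (hflip : ∀ x y : Σ i, (E i →+* ℂ), y.1 ≠ x.1 → Flipped x y) :
    Stable Φ j := by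
  classical
  intro c hc hrel
  let X := Σ i, (E i →+* L)
  let G := L ≃ₐ[ℚ] L
  let u : X → ℤ := fun x => sg Φ j x 1
  have hus : ∀ (g : G) (x : X), u (g • x) = sg Φ j x g := by
    intro g x
    change sg Φ j (g • x) 1 = _
    rw [sg_smul, one_mul]
  have hu : ∀ x, u x = 1 ∨ u x = -1 := by
    intro x
    by_cases h : j.comp ((1 : G) • x.2) ∈ Φ x.1
    · exact Or.inl (sg_pos j h)
    · exact Or.inr (sg_neg j h)
  have hua : ∀ x, u (inj x) = -u x := fun x => sg_inj hΦ j x 1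
  have hG : ∀ (g : G) (x : X), g • inj x = inj (g • x) := by
    rintro g ⟨a, φ⟩
    rfl
  let Jm : X → Σ i, (E i →+* ℂ) := fun x => ⟨x.1, j.comp x.2⟩
  have hJ : Function.Injective Jm := by
    rintro ⟨a, φ⟩ ⟨b, ψ⟩ h
    simp only [Jm, Sigma.mk.injEq] at h
    obtain ⟨rfl, h⟩ := h
    rw [comp_injective j (eq_of_heq h)]
  have hJinv : ∀ x, Jm (inj x) = bar (Jm x) := by
    rintro ⟨a, φ⟩
    simp only [Jm, inj, comp_cbar, bar]
  obtain ⟨hblock, hcross⟩ := core_block (X := X) (G := G) inj hG (fun x => x.1) u hua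
    (fun x y hxy => by
      obtain ⟨τ, hτ⟩ := hflip (Jm x) (Jm y) hxy
      obtain ⟨σ, hσ⟩ := exists_restrict j τ
      have hJσ : ∀ z : X, Jm (σ • z) = move τ (Jm z) := by
        rintro ⟨a, φ⟩
        exact congrArg (Sigma.mk a) (comp_smul_of_restrict j τ σ hσ φ)
      refine ⟨σ, ?_⟩
      rcases hτ with ⟨h3, h4⟩ | ⟨h3, h4⟩ | ⟨h3, h4⟩
      · refine Or.inl ⟨hJ ?_, hJ ?_⟩
        · rw [hJσ, h3]
        · rw [hJσ, hJinv, h4]
      · refine Or.inr ⟨hJ ?_, hJ ?_⟩
        · rw [hJσ, hJinv, h3]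
        · rw [hJσ, h4]
      · exfalso
        apply hxy
        exact (congrArg Sigma.fst h3).symm) c (fun g => by
      rw [← hrel g]
      exact Finset.sum_congr rfl fun x _ => by rw [hus])
  -- the relation on one block
  have hblock' : ∀ i, ∀ g : G, ∑ φ : E i →+* L, c ⟨i, φ⟩ * u ⟨i, g • φ⟩ = 0 := by
    intro i g
    rw [← hblock i g, Finset.sum_filter, Fintype.sum_sigma, Finset.sum_eq_single i]
    · refine Finset.sum_congr rfl fun φ _ => ?_
      rw [if_pos rfl]
      rfl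
    · intro b _ hb
      refine Finset.sum_eq_zero fun φ _ => ?_
      rw [if_neg hb]
    · intro h
      exact absurd (Finset.mem_univ _) h
  rintro ⟨i, φ₀⟩
  -- members of other blocks do not matter
  have hother : ∀ y : X, sg Φ j y = sg Φ j ⟨i, φ₀⟩ → y.1 = i := by
    intro y hy
    by_contra hne
    have h1 := hcross ⟨i, φ₀⟩ y hne
    have h2 : ∀ g : G, u (g • (⟨i, φ₀⟩ : X)) * u (g • y) = 1 := by
      intro g
      have h3 : u (g • y) = u (g • (⟨i, φ₀⟩ : X)) := by
        rw [hus, hus, hy]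
      rw [h3]
      rcases hu (g • (⟨i, φ₀⟩ : X)) with h | h <;> rw [h] <;> norm_num
    rw [Finset.sum_congr rfl (fun g _ => h2 g), Finset.sum_const, Finset.card_univ, nsmul_eq_mul,
      mul_one] at h1
    have h3 : 0 < Fintype.card G := Fintype.card_pos
    omega
  rw [Finset.sum_filter, Fintype.sum_sigma, Finset.sum_eq_single i (fun b _ hb =>
    Finset.sum_eq_zero fun φ _ => if_neg fun h => hb (hother _ h)) (fun h =>
    absurd (Finset.mem_univ _) h)]
  by_cases hprim : ∃ (g : G) (x y : E i →+* L), u ⟨i, g • x⟩ * u ⟨i, g • y⟩ ≠ u ⟨i, x⟩ * u ⟨i, y⟩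
  · have hcardi : Fintype.card (E i →+* L) = 2 * finrank ℚ (maximalRealSubfield (E i)) := by
      have h0 : finrank (maximalRealSubfield (E i)) (E i) = 2 :=
        Algebra.IsQuadraticExtension.finrank_eq_two _ _
      rw [card_emb j (hemb i), ← finrank_mul_finrank ℚ (maximalRealSubfield (E i)) (E i),
        h0, mul_comm]
    rcases core_pair (X := E i →+* L) (G := G) cbar cbar_cbar cbar_ne (fun g x => rfl)
      (finrank ℚ (maximalRealSubfield (E i))) finrank_pos hcardi
      (by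
        rcases hdeg i with h | ⟨h | h, _⟩
        · exact Or.inl h
        · exact Or.inr (Or.inl h)
        · exact Or.inr (Or.inr fun x y hx hy => triple_transfer j h x y hx hy))
      (fun x y x' y' h1 h2 h1' h2' => pair_transfer j (hpair i) x y x' y' h1 h2 h1' h2')
      (fun x => u ⟨i, x⟩) (fun x => hu ⟨i, x⟩) (fun x => hua ⟨i, x⟩)
      (fun x => c ⟨i, x⟩) (fun x => hc ⟨i, x⟩) (hblock' i) with h1 | h1 | h1
    · refine Finset.sum_eq_zero fun φ _ => ?_
      split_ifs
      · exact h1 φ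
      · rfl
    · obtain ⟨g, x, y, hgxy⟩ := hprim
      exact absurd (h1 g x y) hgxy
    · exfalso
      obtain ⟨v, hv, hvn, hvs, hvo⟩ := h1
      let R : Finset (E i →+* L) := Finset.univ.filter (fun x => u ⟨i, x⟩ = 1)
      have hR : IsHalf cbar R := by
        intro x
        have h2 : u ⟨i, cbar x⟩ = -u ⟨i, x⟩ := hua ⟨i, x⟩
        simp only [R, Finset.mem_filter, Finset.mem_univ, true_and, h2]
        rcases hu ⟨i, x⟩ with h | h <;> rw [h] <;> norm_num
      have hRn : R.card = finrank ℚ (maximalRealSubfield (E i)) := by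
        have := hR.card cbar_cbar
        omega
      have hsumR : ∑ x ∈ R, v x = 0 := by
        have h2 := hvo 1
        rw [hR.sum_symm cbar_cbar (fun x => u ⟨i, (1 : G) • x⟩ * v x) (fun x => by
          have h3 : u ⟨i, (1 : G) • cbar x⟩ = -u ⟨i, (1 : G) • x⟩ := by
            rw [one_smul, one_smul]
            exact hua ⟨i, x⟩
          simp only [h3, hvn]; ring)] at h2
        have h3 : ∑ x ∈ R, u ⟨i, (1 : G) • x⟩ * v x = ∑ x ∈ R, v x := by
          refine Finset.sum_congr rfl fun x hx => ?_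
          rw [one_smul, (Finset.mem_filter.1 hx).2, one_mul]
        rw [h3] at h2
        omega
      rcases hdeg i with hodd | ⟨_, hnw⟩
      · have h5 : (2 : ℤ) ∣ ∑ x ∈ R, (v x - 1) := by
          refine Finset.dvd_sum fun x hx => ?_
          rcases hv x with e2 | e2 <;> rw [e2] <;> norm_num
        rw [Finset.sum_sub_distrib, hsumR, Finset.sum_const, hRn, nsmul_eq_mul, mul_one] at h5
        obtain ⟨b, hb⟩ := hodd
        omega
      · apply hnw
        refine weilType_of j (Φ i) (hemb i) v hv hvn hvs ?_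
        have hu1 : ∀ x : E i →+* L, u ⟨i, x⟩ = 1 ↔ j.comp x ∈ Φ i := by
          intro x
          constructor
          · intro h2
            by_contra h3
            have h4 : u ⟨i, x⟩ = -1 := sg_neg j (x := ⟨i, x⟩) (σ := 1) (by rw [one_smul]; exact h3)
            omega
          · intro h2
            exact sg_pos j (x := ⟨i, x⟩) (σ := 1) (by rw [one_smul]; exact h2)
        have h2 : ∀ ε : ℤ, {x : E i →+* L | j.comp x ∈ Φ i ∧ v x = ε}.ncard =
            (R.filter (fun x => v x = ε)).card := by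
          intro ε
          rw [← Set.ncard_coe_finset]
          congr 1
          ext x
          simp only [Set.mem_setOf_eq, Finset.coe_filter, R, Finset.mem_filter, Finset.mem_univ,
            true_and, hu1]
        rw [h2, h2]
        have h3 : ∑ x ∈ R, v x = ((R.filter (fun x => v x = 1)).card : ℤ) -
            ((R.filter (fun x => v x = -1)).card : ℤ) := by
          rw [← Finset.sum_boole, ← Finset.sum_boole, ← Finset.sum_sub_distrib]
          refine Finset.sum_congr rfl fun x _ => ?_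
          rcases hv x with e2 | e2 <;> rw [e2] <;> norm_num
        rw [hsumR] at h3
        omega
  · push Not at hprim
    have h1 : ∑ φ : E i →+* L, c ⟨i, φ⟩ = 0 := by
      have h2 : ∑ φ : E i →+* L, c ⟨i, φ⟩ = ∑ φ : E i →+* L, -c ⟨i, φ⟩ := by
        refine Finset.sum_nbij' cbar cbar (fun _ _ => Finset.mem_univ _)
          (fun _ _ => Finset.mem_univ _) (fun y _ => cbar_cbar y) (fun y _ => cbar_cbar y)
          (fun y _ => ?_)
        have h3 := hc ⟨i, y⟩
        change c ⟨i, cbar y⟩ = -c ⟨i, y⟩ at h3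
        rw [h3, neg_neg]
      rw [Finset.sum_neg_distrib] at h2
      omega
    have h2 : ∑ φ : E i →+* L, c ⟨i, φ⟩ * u ⟨i, φ⟩ = 0 := by
      have h3 := hblock' i 1
      simpa only [one_smul] using h3
    have h3 : ∀ φ : E i →+* L, 2 * (if sg Φ j ⟨i, φ⟩ = sg Φ j ⟨i, φ₀⟩ then c ⟨i, φ⟩ else 0) =
        c ⟨i, φ⟩ + u ⟨i, φ₀⟩ * (c ⟨i, φ⟩ * u ⟨i, φ⟩) := by
      intro φ
      by_cases h4 : u ⟨i, φ⟩ = u ⟨i, φ₀⟩
      · have h5 : sg Φ j ⟨i, φ⟩ = sg Φ j ⟨i, φ₀⟩ := by
          funext g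
          have h6 := hprim g φ φ₀
          rw [h4] at h6
          have h7 : u ⟨i, g • φ⟩ = sg Φ j ⟨i, φ⟩ g := hus g ⟨i, φ⟩
          have h8 : u ⟨i, g • φ₀⟩ = sg Φ j ⟨i, φ₀⟩ g := hus g ⟨i, φ₀⟩
          rw [← h7, ← h8]
          rcases hu ⟨i, φ₀⟩ with e1 | e1 <;> rcases hu ⟨i, g • φ⟩ with e2 | e2 <;>
            rcases hu ⟨i, g • φ₀⟩ with e3 | e3 <;> rw [e1, e2, e3] at h6 <;> rw [e2, e3] <;>
            norm_num at h6
        rw [if_pos h5, h4]
        rcases hu ⟨i, φ₀⟩ with e1 | e1 <;> rw [e1] <;> ring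
      · have h5 : ¬ sg Φ j ⟨i, φ⟩ = sg Φ j ⟨i, φ₀⟩ := fun h => h4 (congrFun h 1)
        rw [if_neg h5]
        rcases hu ⟨i, φ₀⟩ with e1 | e1 <;> rcases hu ⟨i, φ⟩ with e2 | e2 <;> rw [e1, e2] at h4 ⊢
        · exact absurd rfl h4
        · ring
        · ring
        · exact absurd rfl h4
    have h4 : 2 * ∑ φ : E i →+* L, (if sg Φ j ⟨i, φ⟩ = sg Φ j ⟨i, φ₀⟩ then c ⟨i, φ⟩ else 0) = 0 := by
      rw [Finset.mul_sum, Finset.sum_congr rfl (fun φ _ => h3 φ), Finset.sum_add_distrib,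
        ← Finset.mul_sum, h1, h2, mul_zero, add_zero]
    omega

end

end Pool.Agent.H194R3.CM
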